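import Pool.Agent.Lib.MP_a7ed83_ag.W.A1

/-! A2 (50 minutes). Every homomorphism `φ : A →+ ℂ` is a sum of eigenhomomorphisms of `α`.
PROOF. `pC := p.map (Int.castRingHom ℂ)` is monic and squarefree/separable (a squarefree
polynomial over `ℚ` is separable: `PerfectField.separable_iff_squarefree`, `Separable.map`), it
splits over `ℂ`, so with `R := pC.roots.toFinset` one has `pC = ∏ z ∈ R, (X - C z)` (roots
without multiplicity: `nodup_roots`) and `R.card ≤ p.natDegree` (`card_roots'`,
`Multiset.toFinset_card_le`, `natDegree_map_le` or `Monic.natDegree_map`).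
`T : Module.End ℂ (A →+ ℂ)`, `T φ = φ.comp α` (`ℂ`-linear). Then `aeval T pC = 0`: for every
`r : ℤ[X]`, `(aeval T (r.map (Int.castRingHom ℂ)) φ) x = φ ((aeval α r) x)` (induction on `r`, or
first `(T ^ n) φ = φ.comp (α ^ n)` and then sums over the coefficients). Apply `eig_decomp` to
`T`, `R` and unfold `T (e z φ) = z • e z φ` at `x`. -/

open Polynomial

namespace ETT

universe u v

private theorem aeval_hom {A : Type v} [AddCommGroup A] (α : AddMonoid.End A) (T : Module.End ℂ (A →+ ℂ))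
    (hT : ∀ φ : A →+ ℂ, ∀ x, T φ x = φ (α x)) (r : ℤ[X]) (φ : A →+ ℂ) (x : A) :
    (aeval T (r.map (Int.castRingHom ℂ)) φ) x = φ ((aeval α r) x) := by
  have hpow : ∀ (n : ℕ) (φ : A →+ ℂ) (x : A), (T ^ n) φ x = φ ((α ^ n) x) := by
    intro n
    induction n with
    | zero => intro φ x; rfl
    | succ n ih =>
      intro φ x
      rw [pow_succ, Module.End.mul_apply, ih, hT]
      rw [pow_succ']
      rfl
  induction r using Polynomial.induction_on' with
  | add p q hp hq =>
    rw [Polynomial.map_add, map_add, map_add, LinearMap.add_apply, AddMonoidHom.add_apply, hp, hq]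
    have h1 : (aeval α p + aeval α q) x = (aeval α p) x + (aeval α q) x := rfl
    rw [h1, map_add]
  | monomial n c =>
    rw [Polynomial.map_monomial, aeval_monomial, aeval_monomial, Module.End.mul_apply,
      Module.algebraMap_end_apply]
    have h1 : ((Int.castRingHom ℂ) c • (T ^ n) φ) x = (c : ℂ) * ((T ^ n) φ x) := rfl
    rw [h1, hpow]
    have h2 : (algebraMap ℤ (AddMonoid.End A) c * α ^ n) x = c • ((α ^ n) x) := by
      have h3 : algebraMap ℤ (AddMonoid.End A) c = (c : AddMonoid.End A) := by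
        simp
      rw [h3]
      exact AddMonoid.End.intCast_apply c ((α ^ n) x)
    rw [h2, map_zsmul, zsmul_eq_mul]

theorem expand {A : Type v} [AddCommGroup A] (α : AddMonoid.End A) (p : ℤ[X]) (hm : p.Monic)
    (hs : Squarefree (p.map (Int.castRingHom ℚ))) (ha : aeval α p = 0) :
    ∃ (R : Finset ℂ) (e : ℂ → ((A →+ ℂ) →ₗ[ℂ] (A →+ ℂ))), R.card ≤ p.natDegree ∧
      (∀ φ : A →+ ℂ, φ = ∑ z ∈ R, e z φ) ∧
      ∀ z ∈ R, ∀ (φ : A →+ ℂ) (x : A), e z φ (α x) = z * e z φ x := by
  classical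
  have hsep : (p.map (Int.castRingHom ℚ)).Separable := PerfectField.separable_iff_squarefree.2 hs
  have hsepC : (p.map (Int.castRingHom ℂ)).Separable := by
    have h1 : p.map (Int.castRingHom ℂ) = (p.map (Int.castRingHom ℚ)).map (algebraMap ℚ ℂ) := by
      rw [Polynomial.map_map]
      congr 1
    rw [h1]
    exact hsep.map
  have hmC : (p.map (Int.castRingHom ℂ)).Monic := hm.map _
  have hspl : (p.map (Int.castRingHom ℂ)).Splits := IsAlgClosed.splits _
  have hnd : (p.map (Int.castRingHom ℂ)).roots.Nodup := nodup_roots hsepC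
  have hprod : p.map (Int.castRingHom ℂ) = ∏ z ∈ (p.map (Int.castRingHom ℂ)).roots.toFinset, (X - C z) := by
    have h1 := hspl.eq_prod_roots_of_monic hmC
    conv_lhs => rw [h1]
    rw [Finset.prod_multiset_map_count]
    refine Finset.prod_congr rfl fun z hz => ?_
    rw [Multiset.count_eq_one_of_mem hnd (Multiset.mem_toFinset.1 hz), pow_one]
  let T : Module.End ℂ (A →+ ℂ) :=
    { toFun := fun φ => φ.comp α
      map_add' := fun φ ψ => rfl
      map_smul' := fun c φ => rfl }
  have hT : ∀ φ : A →+ ℂ, ∀ x, T φ x = φ (α x) := fun φ x => rfl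
  have h0 : aeval T (∏ z ∈ (p.map (Int.castRingHom ℂ)).roots.toFinset, (X - C z)) = 0 := by
    rw [← hprod]
    refine LinearMap.ext fun φ => AddMonoidHom.ext fun x => ?_
    rw [aeval_hom α T hT, ha]
    exact map_zero φ
  obtain ⟨e, he1, he2⟩ := eig_decomp T _ h0
  refine ⟨_, e, ?_, he1, fun z hz φ x => ?_⟩
  · exact (Multiset.toFinset_card_le _).trans ((card_roots' _).trans natDegree_map_le)
  · have h1 := he2 z hz φ
    have h2 := congrArg (fun ψ : A →+ ℂ => ψ x) h1
    exact h2

/-- The formula for the powers. -/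
theorem expand_pow {A : Type v} [AddCommGroup A] (α : AddMonoid.End A) (R : Finset ℂ)
    (e : ℂ → ((A →+ ℂ) →ₗ[ℂ] (A →+ ℂ))) (h1 : ∀ φ : A →+ ℂ, φ = ∑ z ∈ R, e z φ)
    (h2 : ∀ z ∈ R, ∀ (φ : A →+ ℂ) (x : A), e z φ (α x) = z * e z φ x)
    (φ : A →+ ℂ) (m : ℕ) (x : A) : φ ((α ^ m) x) = ∑ z ∈ R, z ^ m * e z φ x := by
  have h3 : ∀ z ∈ R, ∀ (m : ℕ) (x : A), e z φ ((α ^ m) x) = z ^ m * e z φ x := by
    intro z hz m
    induction m with
    | zero =>
      intro x
      rw [pow_zero, pow_zero, one_mul]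
      rfl
    | succ m ih =>
      intro x
      have h4 : (α ^ (m + 1)) x = α ((α ^ m) x) := by
        rw [pow_succ']
        rfl
      rw [h4, h2 z hz, ih, pow_succ]
      ring
  have h5 := congrArg (fun ψ : A →+ ℂ => ψ ((α ^ m) x)) (h1 φ)
  have h6 : (∑ z ∈ R, e z φ) ((α ^ m) x) = ∑ z ∈ R, e z φ ((α ^ m) x) := by
    rw [AddMonoidHom.finsetSum_apply]
  refine (h5.trans h6).trans (Finset.sum_congr rfl fun z hz => h3 z hz m x)

end ETT
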