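import Pool.Agent.Lib.MP_a7ed83_ag.Defs

/-! A4 (30 minutes).
`exists_hom`: the map `ℤ → A`, `k ↦ k • x` is injective; extend `ℤ → ℂ` to `A → ℂ` by
`(Module.Baer.of_divisible _).extension_property_addMonoidHom` (see
Mathlib/Algebra/Module/CharacterModule.lean, line 105).
`generic`: `Subspace.biUnion_ne_univ_of_top_notMem` for the kernels of the `L i`. -/

open Polynomial

namespace ETT

universe u v

theorem exists_hom {A : Type v} [AddCommGroup A] (x : A) (hx : ¬ Tors x) :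
    ∃ φ : A →+ ℂ, φ x ≠ 0 := by
  obtain ⟨f, hf⟩ : ∃ f : ULift.{v} ℤ →+ A, ∀ k, f k = k.down • x :=
    ⟨(zmultiplesHom A x).comp (AddEquiv.ulift : ULift.{v} ℤ ≃+ ℤ).toAddMonoidHom, fun k => rfl⟩
  have hinj : Function.Injective f := by
    rw [injective_iff_map_eq_zero]
    rintro ⟨k⟩ hk
    rw [hf] at hk
    simp only at hk
    by_contra h0
    have hk0 : k ≠ 0 := by
      intro h1
      apply h0
      rw [h1]
      rfl
    apply hx
    refine ⟨k.natAbs, Int.natAbs_pos.2 hk0, ?_⟩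
    rcases Int.natAbs_eq k with h1 | h1
    · rw [← natCast_zsmul, ← h1]
      exact hk
    · have h2 : ((k.natAbs : ℕ) : ℤ) = -k := by omega
      rw [← natCast_zsmul, h2, neg_smul, hk, neg_zero]
  obtain ⟨g, hg⟩ : ∃ g : ULift.{v} ℤ →+ ULift.{v} ℂ, g ⟨1⟩ = ⟨1⟩ := by
    refine ⟨(AddEquiv.ulift : ULift.{v} ℂ ≃+ ℂ).symm.toAddMonoidHom.comp
      ((Int.castAddHom ℂ).comp (AddEquiv.ulift : ULift.{v} ℤ ≃+ ℤ).toAddMonoidHom), ?_⟩
    apply ULift.ext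
    exact Int.cast_one
  obtain ⟨h, hh⟩ := (Module.Baer.of_divisible (ULift.{v} ℂ)).extension_property_addMonoidHom f hinj g
  refine ⟨(AddEquiv.ulift : ULift.{v} ℂ ≃+ ℂ).toAddMonoidHom.comp h, ?_⟩
  have h1 : f ⟨1⟩ = x := by
    rw [hf]
    exact one_smul ℤ x
  have h2 : h x = ⟨1⟩ := by
    rw [← h1, ← hg, ← hh]
    rfl
  have h3 : ((AddEquiv.ulift : ULift.{v} ℂ ≃+ ℂ).toAddMonoidHom.comp h) x = (h x).down := rfl
  rw [h3, h2]
  exact one_ne_zero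

theorem generic {Φ : Type v} [AddCommGroup Φ] [Module ℂ Φ] {ι : Type*} (s : Finset ι)
    (L : ι → (Φ →ₗ[ℂ] ℂ)) (h : ∀ i ∈ s, L i ≠ 0) : ∃ φ : Φ, ∀ i ∈ s, L i φ ≠ 0 := by
  classical
  have h1 : (⊤ : Submodule ℂ Φ) ∉ s.image fun i => LinearMap.ker (L i) := by
    intro h2
    obtain ⟨i, hi, h3⟩ := Finset.mem_image.1 h2
    exact h i hi (LinearMap.ker_eq_top.1 h3)
  have h2 := Subspace.biUnion_ne_univ_of_top_notMem h1
  rw [Set.ne_univ_iff_exists_notMem] at h2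
  obtain ⟨φ, hφ⟩ := h2
  refine ⟨φ, fun i hi h3 => hφ ?_⟩
  rw [Set.mem_iUnion₂]
  exact ⟨LinearMap.ker (L i), Finset.mem_image_of_mem _ hi, h3⟩

end ETT
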