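import Pool.Agent.Lib.MP_a7ed83_ag.Defs

/-! A3 (60 minutes). Eigenvalues of non-zero eigenhomomorphisms are neither 0 nor roots of unity.
PROOF. Let `p` be the polynomial of `h.poly`. For `r : ℤ[X]`,
`ψ ((aeval α r) x) = eval₂ (Int.castRingHom ℂ) z r * ψ x` (induction on `r`); so `p(z) = 0`.
KEY. Let `Z : ℤ[X]` be such that `aeval α Z y = 0` implies `Tors y`. Then `Z(z) ≠ 0`. Proof: let
`Z(z) = 0`, `m := minpoly ℚ z` (`z` is integral over `ℤ`, so over `ℚ`). Over `ℚ`: `p = m * h`,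
`Z = m * h'` (`minpoly.dvd`), and `h(z) ≠ 0`, otherwise `m ∣ h` and `m * m ∣ p`, so `m` is a unit
(`p` squarefree), false. So `Z * h = h' * p`. Clear denominators: there are a natural number
`K > 0` and integer polynomials `h₁, h₂` with `h₁ = K h`, `h₂ = K h'` over `ℚ`
(`IsLocalization.integerNormalization`, or by hand). Then `Z * h₁ = h₂ * p` in `ℤ[X]` (map to `ℚ[X]` is
injective), so for all `x`: `aeval α Z (aeval α h₁ x) = 0`, `aeval α h₁ x` is torsion, `ψ` of it
is 0 (`k * ψ y = 0`), i.e. `h₁(z) ψ x = 0`, `ψ x = 0` for all `x`: contradiction to `hne`.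
APPLICATION. `Z = X`: `α y = 0` gives `δ * q y = q 0 = 0` (`h.smul 0`), so `q y = 0`, and
`h.pos` shows that `y` is torsion. `Z = X ^ t - 1`: `(α ^ t) y = y` gives `δ ^ t * q y = q y`,
`q y = 0`. -/

open Polynomial

namespace ETT

universe u v

private theorem a3_pow {A : Type v} [AddCommGroup A] (α : AddMonoid.End A) (ψ : A →+ ℂ) (z : ℂ)
    (hψ : ∀ x, ψ (α x) = z * ψ x) (n : ℕ) (x : A) : ψ ((α ^ n) x) = z ^ n * ψ x := by
  induction n generalizing x with
  | zero => simp
  | succ n ih =>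
    have h1 : (α ^ (n + 1)) x = (α ^ n) (α x) := by
      rw [pow_succ]
      rfl
    rw [h1, ih, hψ, pow_succ]
    ring

private theorem a3_aeval {A : Type v} [AddCommGroup A] (α : AddMonoid.End A) (ψ : A →+ ℂ) (z : ℂ)
    (hψ : ∀ x, ψ (α x) = z * ψ x) (r : ℤ[X]) (x : A) :
    ψ ((aeval α r) x) = aeval z r * ψ x := by
  induction r using Polynomial.induction_on' with
  | add f g hf hg =>
    have h1 : (aeval α (f + g)) x = (aeval α f) x + (aeval α g) x := by
      rw [map_add]
      rfl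
    rw [h1, map_add, hf, hg, map_add]
    ring
  | monomial n a =>
    have h1 : (aeval α (monomial n a)) x = a • ((α ^ n) x) := by
      rw [aeval_monomial]
      have h2 : (algebraMap ℤ (AddMonoid.End A)) a = ((a : ℤ) : AddMonoid.End A) := by
        simp
      rw [h2]
      change ((a : ℤ) : AddMonoid.End A) ((α ^ n) x) = a • ((α ^ n) x)
      exact AddMonoid.End.intCast_apply a _
    rw [h1, map_zsmul, a3_pow α ψ z hψ, aeval_monomial, zsmul_eq_mul]
    simp only [algebraMap_int_eq, eq_intCast]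
    ring

private theorem a3_key {A : Type v} [AddCommGroup A] (α : AddMonoid.End A) (ψ : A →+ ℂ) (z : ℂ)
    (hψ : ∀ x, ψ (α x) = z * ψ x) (hne : ∃ x, ψ x ≠ 0)
    (p : ℤ[X]) (hm : p.Monic) (hs : Squarefree (p.map (Int.castRingHom ℚ)))
    (hp : aeval α p = 0) (Z : ℤ[X]) (hZ : ∀ y, (aeval α Z) y = 0 → Tors y) : aeval z Z ≠ 0 := by
  intro hz
  obtain ⟨x0, hx0⟩ := hne
  have hpz : aeval z p = 0 := by
    have h1 := a3_aeval α ψ z hψ p x0
    rw [hp] at h1
    have h2 : ψ ((0 : AddMonoid.End A) x0) = 0 := by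
      change ψ 0 = 0
      exact map_zero ψ
    rw [h2] at h1
    rcases mul_eq_zero.mp h1.symm with h3 | h3
    · exact h3
    · exact absurd h3 hx0
  have hint : IsIntegral ℚ z := by
    have h1 : IsIntegral ℤ z := ⟨p, hm, by rw [← aeval_def]; exact hpz⟩
    exact h1.tower_top
  have e1 : aeval z (p.map (Int.castRingHom ℚ)) = 0 := by
    have := aeval_map_algebraMap (R := ℤ) ℚ z p
    rw [algebraMap_int_eq] at this
    rw [this, hpz]
  have e2 : aeval z (Z.map (Int.castRingHom ℚ)) = 0 := by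
    have := aeval_map_algebraMap (R := ℤ) ℚ z Z
    rw [algebraMap_int_eq] at this
    rw [this, hz]
  obtain ⟨h, hh⟩ := minpoly.dvd ℚ z e1
  obtain ⟨h', hh'⟩ := minpoly.dvd ℚ z e2
  have hhz : aeval z h ≠ 0 := by
    intro h0
    obtain ⟨g, hg⟩ := minpoly.dvd ℚ z h0
    have h1 : minpoly ℚ z * minpoly ℚ z ∣ p.map (Int.castRingHom ℚ) :=
      ⟨g, by rw [hh, hg]; ring⟩
    exact minpoly.not_isUnit ℚ z (hs _ h1)
  obtain ⟨b, hb⟩ := IsLocalization.integerNormalization_map_to_map (nonZeroDivisors ℤ) (S := ℚ) h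
  obtain ⟨b', hb'⟩ := IsLocalization.integerNormalization_map_to_map (nonZeroDivisors ℤ) (S := ℚ) h'
  set N := IsLocalization.integerNormalization (nonZeroDivisors ℤ) h with hN
  set N' := IsLocalization.integerNormalization (nonZeroDivisors ℤ) h' with hN'
  have hb0 : ((b : ℤ)) ≠ 0 := nonZeroDivisors.ne_zero b.2
  have hb0' : ((b' : ℤ)) ≠ 0 := nonZeroDivisors.ne_zero b'.2
  rw [algebraMap_int_eq] at hb hb'
  have key : Z * (C (b' : ℤ) * N) = (C (b : ℤ) * N') * p := by
    apply Polynomial.map_injective (Int.castRingHom ℚ) Int.cast_injective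
    rw [Polynomial.map_mul, Polynomial.map_mul, Polynomial.map_mul, Polynomial.map_mul, hb, hb',
      hh, hh', map_C, map_C, zsmul_eq_mul, zsmul_eq_mul]
    simp only [eq_intCast, Int.cast_id, map_intCast]
    ring
  have hH : aeval z (C (b' : ℤ) * N) ≠ 0 := by
    rw [map_mul, aeval_C]
    have h2 : aeval z N = ((b : ℤ) : ℂ) * aeval z h := by
      have := aeval_map_algebraMap (R := ℤ) ℚ z N
      rw [algebraMap_int_eq, hb] at this
      rw [← this, map_zsmul, zsmul_eq_mul]
    rw [h2]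
    simp only [algebraMap_int_eq, eq_intCast]
    exact mul_ne_zero (Int.cast_ne_zero.mpr hb0') (mul_ne_zero (Int.cast_ne_zero.mpr hb0) hhz)
  have h3 : (aeval α Z) ((aeval α (C (b' : ℤ) * N)) x0) = 0 := by
    have h4 : (aeval α Z) ((aeval α (C (b' : ℤ) * N)) x0) =
        (aeval α (Z * (C (b' : ℤ) * N))) x0 := by
      rw [map_mul (aeval α) Z]
      rfl
    rw [h4, key, map_mul, hp, mul_zero]
    rfl
  obtain ⟨k, hk, hk0⟩ := hZ _ h3
  have h5 : ψ ((aeval α (C (b' : ℤ) * N)) x0) = 0 := by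
    have h6 := map_nsmul ψ k ((aeval α (C (b' : ℤ) * N)) x0)
    rw [hk0, map_zero, nsmul_eq_mul] at h6
    rcases mul_eq_zero.mp h6.symm with h7 | h7
    · exact absurd (Nat.cast_eq_zero.mp h7) hk.ne'
    · exact h7
  rw [a3_aeval α ψ z hψ] at h5
  rcases mul_eq_zero.mp h5 with h7 | h7
  · exact hH h7
  · exact hx0 h7

private theorem a3_q_pow {A : Type v} [AddCommGroup A] {q : A → ℝ} {α : AddMonoid.End A} {δ : ℝ}
    {D : ℕ} (h : QD q α δ D) (n : ℕ) (x : A) : q ((α ^ n) x) = δ ^ n * q x := by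
  induction n generalizing x with
  | zero => simp
  | succ n ih =>
    have h1 : (α ^ (n + 1)) x = (α ^ n) (α x) := by
      rw [pow_succ]
      rfl
    rw [h1, ih, h.eig, pow_succ]
    ring

private theorem a3_tors {A : Type v} [AddCommGroup A] {q : A → ℝ} {α : AddMonoid.End A} {δ : ℝ}
    {D : ℕ} (h : QD q α δ D) {y : A} (hy : q y = 0) : Tors y := by
  by_contra hT
  have h1 : ∀ k : ℕ, 0 < k → k • y ≠ 0 := fun k hk h0 => hT ⟨k, hk, h0⟩
  exact (h.pos y h1).ne' hy

theorem not_root {A : Type v} [AddCommGroup A] {q : A → ℝ} {α : AddMonoid.End A} {δ : ℝ} {D : ℕ}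
    (h : QD q α δ D) (ψ : A →+ ℂ) (z : ℂ) (hψ : ∀ x, ψ (α x) = z * ψ x) (hne : ∃ x, ψ x ≠ 0) :
    z ≠ 0 ∧ ∀ t : ℕ, 0 < t → z ^ t ≠ 1 := by
  obtain ⟨p, hm, -, hs, hp⟩ := h.poly
  have hδ := h.one_lt
  constructor
  · intro hz0
    have h1 := a3_key α ψ z hψ hne p hm hs hp X (by
      intro y hy
      rw [aeval_X] at hy
      apply a3_tors h
      have h2 := h.eig y
      have h3 : q 0 = 0 := by
        have := h.smul 0 y
        simpa using this
      rw [hy, h3] at h2
      rcases mul_eq_zero.mp h2.symm with h4 | h4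
      · linarith
      · exact h4)
    rw [aeval_X] at h1
    exact h1 hz0
  · intro t ht hz1
    have h1 := a3_key α ψ z hψ hne p hm hs hp (X ^ t - 1) (by
      intro y hy
      apply a3_tors h
      have h2 : (aeval α ((X : ℤ[X]) ^ t - 1)) y = (α ^ t) y - y := by
        rw [map_sub, map_pow, aeval_X, map_one]
        rfl
      rw [h2, sub_eq_zero] at hy
      have h3 := a3_q_pow h t y
      rw [hy] at h3
      have h4 : 1 < δ ^ t := one_lt_pow₀ hδ ht.ne'
      have h5 : (δ ^ t - 1) * q y = 0 := by linarith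
      rcases mul_eq_zero.mp h5 with h6 | h6
      · linarith
      · exact h6)
    apply h1
    rw [map_sub, map_pow, aeval_X, map_one, hz1, sub_self]

end ETT
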