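import Pool.Agent.Lib.MP_a7ed83_ag.Defs

/-! A5 (helper21). Counting the solutions of an exponential equation from the theorem of
Evertse, Schlickewei and Schmidt. -/

open Polynomial

namespace ETT

universe u v

theorem encard_biUnion_le' {ι α : Type*} (s : Finset ι) (f : ι → Set α) (N : ℕ)
    (h : ∀ i ∈ s, (f i).encard ≤ N) : (⋃ i ∈ s, f i).encard ≤ (s.card * N : ℕ) := by
  classical
  induction s using Finset.induction_on with
  | empty => simp
  | insert i s hi ih =>
    rw [Finset.set_biUnion_insert, Finset.card_insert_of_notMem hi]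
    refine (Set.encard_union_le _ _).trans ?_
    have := add_le_add (h i (Finset.mem_insert_self _ _))
      (ih fun i' h' => h i' (Finset.mem_insert_of_mem h'))
    refine this.trans (le_of_eq ?_)
    push_cast
    ring

/-- A minimal subset with sum 1 has no vanishing subsums. -/
theorem exists_minimal_sum {κ : Type} [Fintype κ] (y : κ → ℂ) (h : ∑ k, y k = 1) :
    ∃ K : Finset κ, K.Nonempty ∧ ∑ k ∈ K, y k = 1 ∧
      ∀ I ⊆ K, I.Nonempty → ∑ k ∈ I, y k ≠ 0 := by
  classical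
  have hne : (Finset.univ.filter fun K : Finset κ => ∑ k ∈ K, y k = 1).Nonempty :=
    ⟨Finset.univ, by simp [h]⟩
  obtain ⟨K, hK, hmin⟩ := Finset.exists_min_image _ (fun K : Finset κ => K.card) hne
  rw [Finset.mem_filter] at hK
  refine ⟨K, ?_, hK.2, ?_⟩
  · rcases K.eq_empty_or_nonempty with h0 | h0
    · have := hK.2
      rw [h0] at this
      simp at this
    · exact h0
  · intro I hI hI' h0
    have h1 : ∑ k ∈ K \ I, y k = 1 := by
      have := Finset.sum_sdiff (f := y) hI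
      rw [h0, add_zero] at this
      rw [this, hK.2]
    have h2 := hmin (K \ I) (by simp [h1])
    have h3 : (K \ I).card < K.card := by
      rw [Finset.card_sdiff_of_subset hI]
      have := Finset.card_le_card hI
      have := hI'.card_pos
      omega
    omega

/-- One subset. -/
theorem count_sub {m : ℕ} {B : ℕ}
    (hB : ∀ (a : Fin m → ℂ) (g : Fin 2 → Fin m → ℂˣ), (∀ i, a i ≠ 0) →
    {x : Fin m → ℂˣ | x ∈ Subgroup.closure (Set.range g) ∧ ∑ i, a i * (x i : ℂ) = 1 ∧
      ∀ I : Finset (Fin m), I.Nonempty → ∑ i ∈ I, a i * (x i : ℂ) ≠ 0}.encard ≤ B)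
    {κ : Type} [Fintype κ] (a : κ → ℂ) (ρ : κ → ℂ) (s : κ → Bool) (E : Set (ℕ × ℕ))
    (ha : ∀ k, a k ≠ 0) (h0 : ∀ k, ρ k ≠ 0) (hρ : ∀ k, ∀ t : ℕ, 0 < t → ρ k ^ t ≠ 1)
    (hE : ∀ z ∈ E, ∀ z' ∈ E, (z.1 = z'.1 ∨ z.2 = z'.2) → z = z') (K : Finset κ)
    (hK : K.card = m) (hKne : K.Nonempty)
    (h1 : ∀ z ∈ E, ∑ k ∈ K, a k * ρ k ^ (if s k then z.1 else z.2) = 1)
    (h2 : ∀ z ∈ E, ∀ I ⊆ K, I.Nonempty → ∑ k ∈ I, a k * ρ k ^ (if s k then z.1 else z.2) ≠ 0) :
    E.encard ≤ B := by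
  classical
  let e : Fin m ≃ K := (Finset.equivFinOfCardEq hK).symm
  let r : Fin m → ℂˣ := fun i => Units.mk0 (ρ (e i)) (h0 _)
  let g : Fin 2 → Fin m → ℂˣ := fun j i =>
    if j = 0 then (if s (e i) then r i else 1) else (if s (e i) then 1 else r i)
  let Θ : ℕ × ℕ → (Fin m → ℂˣ) := fun z => g 0 ^ z.1 * g 1 ^ z.2
  have hΘ : ∀ z i, Θ z i = r i ^ (if s (e i) then z.1 else z.2) := by
    intro z i
    simp only [Θ, g, Pi.mul_apply, Pi.pow_apply]
    by_cases h : s (e i) <;> simp [h]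
  have hΘ' : ∀ z i, ((Θ z i : ℂˣ) : ℂ) = ρ (e i) ^ (if s (e i) then z.1 else z.2) := by
    intro z i
    rw [hΘ, Units.val_pow_eq_pow_val]
    rfl
  have hinj : Set.InjOn Θ E := by
    intro z hz z' hz' hzz
    obtain ⟨k, hk⟩ := hKne
    have h3 : Θ z (e.symm ⟨k, hk⟩) = Θ z' (e.symm ⟨k, hk⟩) := by rw [hzz]
    have h4 := congrArg (Units.val) h3
    rw [hΘ', hΘ'] at h4
    simp only [Equiv.apply_symm_apply] at h4
    have key : ∀ i j : ℕ, ρ k ^ i = ρ k ^ j → i = j := by
      have key1 : ∀ i j : ℕ, i < j → ρ k ^ i ≠ ρ k ^ j := by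
        intro i j hij h5
        have h6 : ρ k ^ j = ρ k ^ i * ρ k ^ (j - i) := by
          rw [← pow_add]; congr 1; omega
        rw [h6] at h5
        have h7 : ρ k ^ (j - i) = 1 := by
          have := mul_left_cancel₀ (pow_ne_zero i (h0 k)) (by rw [mul_one]; exact h5 :
            ρ k ^ i * 1 = ρ k ^ i * ρ k ^ (j - i))
          exact this.symm
        exact hρ k (j - i) (by omega) h7
      intro i j hij
      rcases lt_trichotomy i j with h5 | h5 | h5
      · exact absurd hij (key1 i j h5)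
      · exact h5
      · exact absurd hij.symm (key1 j i h5)
    apply hE z hz z' hz'
    by_cases h5 : s k
    · left
      simp only [h5, if_true] at h4
      exact key _ _ h4
    · right
      simp only [h5] at h4
      exact key _ _ h4
  have hsum : ∀ z (I : Finset (Fin m)), ∑ i ∈ I, a (e i) * ((Θ z i : ℂˣ) : ℂ) =
      ∑ k ∈ I.map (e.toEmbedding.trans (Function.Embedding.subtype _)),
        a k * ρ k ^ (if s k then z.1 else z.2) := by
    intro z I
    rw [Finset.sum_map]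
    refine Finset.sum_congr rfl fun i _ => ?_
    rw [hΘ']
    rfl
  have hmapu : (Finset.univ : Finset (Fin m)).map
      (e.toEmbedding.trans (Function.Embedding.subtype _)) = K := by
    ext k
    simp only [Finset.mem_map, Finset.mem_univ, true_and]
    constructor
    · rintro ⟨i, rfl⟩
      exact (e i).2
    · intro hk
      exact ⟨e.symm ⟨k, hk⟩, by simp⟩
  rw [← hinj.encard_image]
  refine (Set.encard_le_encard ?_).trans (hB (fun i => a (e i)) g fun i => ha _)
  rintro _ ⟨z, hz, rfl⟩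
  refine ⟨?_, ?_, ?_⟩
  · have hg : ∀ j, g j ∈ Subgroup.closure (Set.range g) := fun j =>
      Subgroup.subset_closure (Set.mem_range_self j)
    exact mul_mem (pow_mem (hg 0) _) (pow_mem (hg 1) _)
  · rw [hsum, hmapu]
    exact h1 z hz
  · intro I hI
    rw [hsum]
    refine h2 z hz _ ?_ (hI.map)
    refine Finset.Subset.trans (Finset.map_subset_map.2 (Finset.subset_univ _)) ?_
    rw [hmapu]

/-- The equation `∑ a_k x_k = 1`, `x_k = ρ_k^m` or `ρ_k^n`, has boundedly many solutions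
`(m, n)` in every set in which `m` determines `n` and conversely. -/
theorem count (ess : ESS) (n : ℕ) : ∃ N : ℕ, ∀ (κ : Type) [Fintype κ] (_ : Fintype.card κ ≤ n)
    (a : κ → ℂ) (ρ : κ → ℂ) (s : κ → Bool) (E : Set (ℕ × ℕ)),
    (∀ k, a k ≠ 0) → (∀ k, ρ k ≠ 0) → (∀ k, ∀ t : ℕ, 0 < t → ρ k ^ t ≠ 1) →
    (∀ z ∈ E, ∑ k, a k * ρ k ^ (if s k then z.1 else z.2) = 1) →
    (∀ z ∈ E, ∀ z' ∈ E, (z.1 = z'.1 ∨ z.2 = z'.2) → z = z') → E.encard ≤ N := by
  classical
  choose B hB using fun m => ess m 2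
  refine ⟨2 ^ n * ∑ m ∈ Finset.range (n + 1), B m, ?_⟩
  intro κ _ hκ a ρ s E ha h0 hρ h1 hE
  set F : Finset κ → Set (ℕ × ℕ) := fun K => {z | z ∈ E ∧ K.Nonempty ∧
    ∑ k ∈ K, a k * ρ k ^ (if s k then z.1 else z.2) = 1 ∧
    ∀ I ⊆ K, I.Nonempty → ∑ k ∈ I, a k * ρ k ^ (if s k then z.1 else z.2) ≠ 0} with hF
  have hsub : E ⊆ ⋃ K ∈ (Finset.univ : Finset (Finset κ)), F K := by
    intro z hz
    obtain ⟨K, hK1, hK2, hK3⟩ := exists_minimal_sum _ (h1 z hz)
    exact Set.mem_biUnion (Finset.mem_coe.2 (Finset.mem_univ K)) ⟨hz, hK1, hK2, hK3⟩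
  have hcard : ∀ K ∈ (Finset.univ : Finset (Finset κ)),
      (F K).encard ≤ (∑ m ∈ Finset.range (n + 1), B m : ℕ) := by
    intro K _
    by_cases hne : (F K).Nonempty
    · obtain ⟨z₀, hz₀⟩ := hne
      have hle : K.card ≤ n := (Finset.card_le_univ K).trans hκ
      have h2 : (F K).encard ≤ (B K.card : ℕ) :=
        count_sub (hB K.card) a ρ s (F K) ha h0 hρ
          (fun z hz z' hz' h => hE z hz.1 z' hz'.1 h) K rfl hz₀.2.1
          (fun z hz => hz.2.2.1) (fun z hz => hz.2.2.2)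
      refine h2.trans ?_
      have h3 : B K.card ≤ ∑ m ∈ Finset.range (n + 1), B m :=
        Finset.single_le_sum (f := B) (fun _ _ => Nat.zero_le _)
          (Finset.mem_range.2 (by omega))
      exact_mod_cast h3
    · rw [Set.not_nonempty_iff_eq_empty.1 hne]
      simp
  refine (Set.encard_le_encard hsub).trans ((encard_biUnion_le' _ _ _ hcard).trans ?_)
  have h4 : (Finset.univ : Finset (Finset κ)).card ≤ 2 ^ n := by
    rw [Finset.card_univ, Fintype.card_finset]
    exact Nat.pow_le_pow_right (by norm_num) hκ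
  exact_mod_cast Nat.mul_le_mul_right _ h4

end ETT
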