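import Pool.Agent.Lib.MP_a7ed83_ag.W.A2
import Pool.Agent.Lib.MP_a7ed83_ag.W.A3
import Pool.Agent.Lib.MP_a7ed83_ag.W.A4
import Pool.Agent.Lib.MP_a7ed83_ag.W.A5

/-! A6 (helper21). Boundedly many solutions if the right hand side has infinite order. -/

open Polynomial

namespace ETT

universe u v

theorem pow_q {A : Type v} [AddCommGroup A] {q : A → ℝ} {α : AddMonoid.End A} {δ : ℝ}
    (h : ∀ x, q (α x) = δ * q x) (m : ℕ) (x : A) : q ((α ^ m) x) = δ ^ m * q x := by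
  induction m with
  | zero => simp
  | succ m ih =>
    have h1 : (α ^ (m + 1)) x = α ((α ^ m) x) := by rw [pow_succ']; rfl
    rw [h1, h, ih, pow_succ', mul_assoc]

theorem eq_of_q {A : Type v} [AddCommGroup A] {q : A → ℝ} {α : AddMonoid.End A} {δ : ℝ} {D : ℕ}
    (h : QD q α δ D) (u : A) (hu : ¬ Tors u) (m m' : ℕ)
    (he : q ((α ^ m) u) = q ((α ^ m') u)) : m = m' := by
  rw [pow_q h.eig, pow_q h.eig] at he
  have hpos : 0 < q u := h.pos u fun k hk h0 => hu ⟨k, hk, h0⟩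
  have h1 : δ ^ m = δ ^ m' := mul_right_cancel₀ hpos.ne' he
  exact pow_right_injective₀ (by linarith [h.one_lt]) h.one_lt.ne' h1

theorem count_E (ess : ESS) (D : ℕ) : ∃ N : ℕ, ∀ (A : Type v) [AddCommGroup A] (q : A → ℝ)
    (α β γ : AddMonoid.End A) (δ ε : ℝ) (u v w : A), QD q α δ D → QD q β ε D →
    (∀ x, q (γ x) = q x) → ¬ Tors u → ¬ Tors v → ¬ Tors w →
    {z : ℕ × ℕ | (α ^ z.1) u - γ ((β ^ z.2) v) = w}.encard ≤ N := by
  classical
  obtain ⟨N, hN⟩ := count ess (D + D)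
  refine ⟨N, ?_⟩
  intro A _ q α β γ δ ε u v w hα hβ hγ hu hv hw
  obtain ⟨p, hp1, hp2, hp3, hp4⟩ := hα.poly
  obtain ⟨p', hp1', hp2', hp3', hp4'⟩ := hβ.poly
  obtain ⟨R, e, hR, he1, he2⟩ := expand α p hp1 hp3 hp4
  obtain ⟨R', e', hR', he1', he2'⟩ := expand β p' hp1' hp3' hp4'
  let ev : A → ((A →+ ℂ) →ₗ[ℂ] ℂ) := fun x =>
    { toFun := fun φ => φ x
      map_add' := fun _ _ => rfl
      map_smul' := fun _ _ => rfl }
  let cγ : (A →+ ℂ) →ₗ[ℂ] (A →+ ℂ) :=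
    { toFun := fun φ => φ.comp γ
      map_add' := fun _ _ => rfl
      map_smul' := fun _ _ => rfl }
  let L : ℂ → ((A →+ ℂ) →ₗ[ℂ] ℂ) := fun z => (ev u).comp (e z)
  let L' : ℂ → ((A →+ ℂ) →ₗ[ℂ] ℂ) := fun z => (ev v).comp ((e' z).comp cγ)
  have hL : ∀ z φ, L z φ = e z φ u := fun _ _ => rfl
  have hL' : ∀ z φ, L' z φ = e' z (φ.comp γ) v := fun _ _ => rfl
  set R₁ := R.filter (fun z => L z ≠ 0) with hR₁
  set R₂ := R'.filter (fun z => L' z ≠ 0) with hR₂
  obtain ⟨φ₀, hφ₀⟩ := exists_hom w hw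
  obtain ⟨φ, hφ⟩ := generic (Φ := A →+ ℂ) (insert (ev w) (R₁.image L ∪ R₂.image L')) id (by
    intro l hl
    rw [Finset.mem_insert, Finset.mem_union, Finset.mem_image, Finset.mem_image] at hl
    rcases hl with rfl | ⟨z, hz, rfl⟩ | ⟨z, hz, rfl⟩
    · intro h
      exact hφ₀ (by simpa [ev] using congrArg (fun l => l φ₀) h)
    · exact (Finset.mem_filter.1 hz).2
    · exact (Finset.mem_filter.1 hz).2)
  have hφw : φ w ≠ 0 := hφ (ev w) (Finset.mem_insert_self _ _)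
  have hφ1 : ∀ z ∈ R₁, L z φ ≠ 0 := fun z hz => hφ (L z)
    (Finset.mem_insert_of_mem (Finset.mem_union_left _ (Finset.mem_image_of_mem _ hz)))
  have hφ2 : ∀ z ∈ R₂, L' z φ ≠ 0 := fun z hz => hφ (L' z)
    (Finset.mem_insert_of_mem (Finset.mem_union_right _ (Finset.mem_image_of_mem _ hz)))
  have hnr1 : ∀ z ∈ R₁, z ≠ 0 ∧ ∀ t : ℕ, 0 < t → z ^ t ≠ 1 := fun z hz =>
    not_root hα (e z φ) z (he2 z (Finset.mem_filter.1 hz).1 φ) ⟨u, hφ1 z hz⟩
  have hnr2 : ∀ z ∈ R₂, z ≠ 0 ∧ ∀ t : ℕ, 0 < t → z ^ t ≠ 1 := fun z hz =>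
    not_root hβ (e' z (φ.comp γ)) z (he2' z (Finset.mem_filter.1 hz).1 _) ⟨v, hφ2 z hz⟩
  have hsum1 : ∀ m : ℕ, φ ((α ^ m) u) = ∑ z ∈ R₁, z ^ m * L z φ := by
    intro m
    rw [expand_pow α R e he1 he2 φ m u]
    symm
    refine Finset.sum_subset (Finset.filter_subset _ _) fun z hz hz' => ?_
    have h1 : L z = 0 := by
      by_contra h
      exact hz' (Finset.mem_filter.2 ⟨hz, h⟩)
    rw [h1]
    simp
  have hsum2 : ∀ m : ℕ, φ (γ ((β ^ m) v)) = ∑ z ∈ R₂, z ^ m * L' z φ := by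
    intro m
    have h0 : φ (γ ((β ^ m) v)) = (φ.comp γ) ((β ^ m) v) := rfl
    rw [h0, expand_pow β R' e' he1' he2' (φ.comp γ) m v]
    symm
    refine Finset.sum_subset (Finset.filter_subset _ _) fun z hz hz' => ?_
    have h1 : L' z = 0 := by
      by_contra h
      exact hz' (Finset.mem_filter.2 ⟨hz, h⟩)
    rw [h1]
    simp
  have hcard : Fintype.card (R₁ ⊕ R₂) ≤ D + D := by
    rw [Fintype.card_sum, Fintype.card_coe, Fintype.card_coe]
    exact add_le_add ((Finset.card_filter_le _ _).trans (hR.trans hp2))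
      ((Finset.card_filter_le _ _).trans (hR'.trans hp2'))
  refine hN (R₁ ⊕ R₂) hcard
    (Sum.elim (fun z => L z φ / φ w) (fun z => - (L' z φ) / φ w))
    (Sum.elim (fun z => (z : ℂ)) (fun z => (z : ℂ)))
    (Sum.elim (fun _ => true) (fun _ => false)) _ ?_ ?_ ?_ ?_ ?_
  · rintro (z | z)
    · exact div_ne_zero (hφ1 z z.2) hφw
    · exact div_ne_zero (neg_ne_zero.2 (hφ2 z z.2)) hφw
  · rintro (z | z)
    · exact (hnr1 z z.2).1
    · exact (hnr2 z z.2).1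
  · rintro (z | z)
    · exact (hnr1 z z.2).2
    · exact (hnr2 z z.2).2
  · rintro ⟨m, n⟩ hz
    have h1 : (α ^ m) u - γ ((β ^ n) v) = w := hz
    have h2 : φ ((α ^ m) u) - φ (γ ((β ^ n) v)) = φ w := by rw [← map_sub, h1]
    rw [hsum1, hsum2, ← Finset.sum_coe_sort R₁, ← Finset.sum_coe_sort R₂] at h2
    rw [Fintype.sum_sum_type]
    simp only [Sum.elim_inl, Sum.elim_inr, if_true, Bool.false_eq_true, if_false]
    have h3 : (1 : ℂ) = (∑ z : R₁, (z : ℂ) ^ m * L z φ - ∑ z : R₂, (z : ℂ) ^ n * L' z φ) / φ w := by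
      rw [h2, div_self hφw]
    rw [h3, sub_div, Finset.sum_div, Finset.sum_div, sub_eq_add_neg, ← Finset.sum_neg_distrib]
    congr 1
    · exact Finset.sum_congr rfl fun z _ => by ring
    · exact Finset.sum_congr rfl fun z _ => by ring
  · rintro ⟨m, n⟩ hz ⟨m', n'⟩ hz' h
    have h1 : (α ^ m) u - γ ((β ^ n) v) = w := hz
    have h2 : (α ^ m') u - γ ((β ^ n') v) = w := hz'
    rcases h with h | h
    · simp only at h
      subst h
      have h3 : γ ((β ^ n) v) = γ ((β ^ n') v) := by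
        have := h1.trans h2.symm
        exact sub_right_inj.1 this
      have h4 := congrArg q h3
      rw [hγ, hγ] at h4
      rw [eq_of_q hβ v hv n n' h4]
    · simp only at h
      subst h
      have h3 : (α ^ m) u = (α ^ m') u := by
        have := h1.trans h2.symm
        exact sub_left_inj.1 this
      rw [eq_of_q hα u hu m m' (congrArg q h3)]

end ETT
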