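import Pool.Agent.Lib.MP_a7ed83_ag.W.A8

/-! A8b (80 minutes). From torsion to zero.
PROOF. Let `p` be the monic polynomial of `hα.poly`; `M₁ := ℤ`-span of `α^i y`, `i < p.natDegree`
is stable under `α` and contains all `α^m y` (division by the monic `p`, or induction using
`X^n = -∑ ..`); it is finitely generated. Similarly `M₂` for `β, y'`.
`M := M₁ ⊔ M₂.map γ ⊔ span {w}` is a finitely generated `ℤ`-submodule of `A`; its torsion
elements form a finitely generated torsion group, so there is `k > 0` with `k • t = 0` for every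
torsion `t ∈ M` (finitely many generators, product of their orders; `ℤ` is Noetherian).
Let `s l := α^(al) y - γ β^(bl) y' - w ∈ M`. Then `s l = 0` iff `s l` is torsion and
`s l ∈ k M := {k • x | x ∈ M}` (if `s l = k • x` is torsion then `x` is torsion, so `k • x = 0`).
The set of `l` with `s l ∈ k M` is eventually periodic: `M₁ / k M₁` is finite (finitely generated,
killed by `k`: `Module.finite_of_fg_torsion` or similar), so by pigeonhole there are `i < j` with
`α^(ai) y - α^(aj) y ∈ k M₁`; applying `α^(an)` gives `α^(a(i+n)) y - α^(a(j+n)) y ∈ k M₁` for all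
`n`, i.e. period `j - i`; similarly for `M₂`; take the product of the two periods. Intersect with
`ep_tors` (`EP.inter`). -/

open Polynomial

namespace ETT

universe u v

private theorem A8b_pow {A : Type v} [AddCommGroup A] (α : AddMonoid.End A) (i : ℕ) (x : A) :
    α ((α ^ i) x) = (α ^ (i + 1)) x := by
  rw [pow_succ']
  rfl

private theorem A8b_pow' {A : Type v} [AddCommGroup A] (α : AddMonoid.End A) (i : ℕ) (x : A) :
    (α ^ i) (α x) = (α ^ (i + 1)) x := by
  rw [pow_succ]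
  rfl

private theorem A8b_add {A : Type v} [AddCommGroup A] (α : AddMonoid.End A) (i j : ℕ) (x : A) :
    (α ^ (i + j)) x = (α ^ i) ((α ^ j) x) := by
  rw [pow_add]
  rfl

/-- The orbit of `x` under `α` lies in a finitely generated stable subgroup. -/
theorem orbit_fg {A : Type v} [AddCommGroup A] (α : AddMonoid.End A) (p : ℤ[X]) (hm : p.Monic)
    (ha : aeval α p = 0) (x : A) :
    ∃ M : Submodule ℤ A, M.FG ∧ x ∈ M ∧ ∀ y ∈ M, α y ∈ M := by
  classical
  obtain ⟨n, hn⟩ : ∃ n, n = p.natDegree := ⟨_, rfl⟩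
  have hmem : ∀ i ≤ n, (α ^ i) x ∈ Submodule.span ℤ (Set.range fun i : Fin (n + 1) => (α ^ (i : ℕ)) x) :=
    fun i hi => Submodule.subset_span ⟨⟨i, by omega⟩, rfl⟩
  refine ⟨Submodule.span ℤ (Set.range fun i : Fin (n + 1) => (α ^ (i : ℕ)) x),
    Submodule.fg_span (Set.finite_range _), ?_, ?_⟩
  · have h := hmem 0 (Nat.zero_le _)
    rw [pow_zero] at h
    exact h
  · intro y hy
    induction hy using Submodule.span_induction with
    | mem y hy =>
      obtain ⟨i, rfl⟩ := hy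
      show α ((α ^ (i : ℕ)) x) ∈ _
      rw [A8b_pow]
      rcases Nat.lt_or_ge (i : ℕ) n with h | h
      · exact hmem _ (by omega)
      · have hi : (i : ℕ) = n := by
          have := i.isLt
          omega
        rw [hi]
        let ev : AddMonoid.End A →+ A :=
          { toFun := fun f => f (α x)
            map_zero' := rfl
            map_add' := fun _ _ => rfl }
        have h1 : ∑ j ∈ Finset.range (n + 1), p.coeff j • α ^ j = 0 := by
          rw [hn, ← aeval_eq_sum_range]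
          exact ha
        have h2 := congrArg ev h1
        have hc : p.coeff n = 1 := by
          rw [hn]
          exact hm.coeff_natDegree
        rw [Finset.sum_range_succ, hc, one_smul, map_add, map_sum, map_zero] at h2
        have h3 : (α ^ (n + 1)) x = -∑ j ∈ Finset.range n, ev (p.coeff j • α ^ j) := by
          rw [← A8b_pow']
          exact eq_neg_of_add_eq_zero_right h2
        rw [h3]
        refine Submodule.neg_mem _ (Submodule.sum_mem _ fun j hj => ?_)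
        rw [map_zsmul]
        refine Submodule.smul_mem _ _ ?_
        show (α ^ j) (α x) ∈ _
        rw [A8b_pow']
        exact hmem _ (Finset.mem_range.1 hj)
    | zero =>
      rw [map_zero]
      exact zero_mem _
    | add y z _ _ h1 h2 =>
      rw [map_add]
      exact add_mem h1 h2
    | smul a y _ h =>
      rw [map_zsmul]
      exact Submodule.smul_mem _ _ h

private theorem A8b_stab {A : Type v} [AddCommGroup A] (α : AddMonoid.End A) (M : Submodule ℤ A)
    (hα : ∀ y ∈ M, α y ∈ M) (m : ℕ) : ∀ y ∈ M, (α ^ m) y ∈ M := by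
  induction m with
  | zero =>
    intro y hy
    rw [pow_zero]
    exact hy
  | succ m ih =>
    intro y hy
    rw [← A8b_pow]
    exact hα _ (ih y hy)

/-- Eventual periodicity modulo `k`. -/
theorem orbit_mod {A : Type v} [AddCommGroup A] (α : AddMonoid.End A) (M : Submodule ℤ A)
    (hM : M.FG) (hα : ∀ y ∈ M, α y ∈ M) (x : A) (hx : x ∈ M) (k a : ℕ) (hk : 0 < k) :
    ∃ L N : ℕ, 0 < L ∧ ∀ n ≥ N, ∃ y ∈ M, (α ^ (a * (n + L))) x - (α ^ (a * n)) x = k • y := by
  have hst := A8b_stab α M hα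
  let K : Submodule ℤ M := LinearMap.range (LinearMap.lsmul ℤ M (k : ℤ))
  have hf1 : Module.Finite ℤ M := Module.Finite.iff_fg.2 hM
  have hf2 : Module.Finite ℤ (M ⧸ K) := inferInstance
  have ht : Module.IsTorsion ℤ (M ⧸ K) := by
    intro q
    obtain ⟨y, rfl⟩ := K.mkQ_surjective q
    refine ⟨⟨(k : ℤ), mem_nonZeroDivisors_of_ne_zero (by exact_mod_cast hk.ne')⟩, ?_⟩
    show (k : ℤ) • K.mkQ y = 0
    rw [← map_smul]
    exact (Submodule.Quotient.mk_eq_zero K).2 ⟨y, rfl⟩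
  have hfin : Finite (M ⧸ K) := Module.finite_of_fg_torsion (M ⧸ K) ht
  have key : ∀ i j : ℕ, i < j → K.mkQ ⟨(α ^ (a * j)) x, hst _ x hx⟩ = K.mkQ ⟨(α ^ (a * i)) x, hst _ x hx⟩ →
      ∃ L N : ℕ, 0 < L ∧ ∀ n ≥ N, ∃ y ∈ M, (α ^ (a * (n + L))) x - (α ^ (a * n)) x = k • y := by
    intro i j hij h
    obtain ⟨y, hy⟩ := (Submodule.Quotient.eq K).1 h
    have hy' : (k : ℤ) • (y : A) = (α ^ (a * j)) x - (α ^ (a * i)) x := congrArg (fun z : M => (z : A)) hy
    rw [natCast_zsmul] at hy'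
    refine ⟨j - i, i, by omega, fun n hn => ⟨(α ^ (a * (n - i))) (y : A), hst _ _ y.2, ?_⟩⟩
    have e1 : a * (n + (j - i)) = a * (n - i) + a * j := by
      rw [← Nat.mul_add]
      congr 1
      omega
    have e2 : a * n = a * (n - i) + a * i := by
      rw [← Nat.mul_add]
      congr 1
      omega
    rw [e1, A8b_add α (a * (n - i)) (a * j) x]
    have e3 : (α ^ (a * n)) x = (α ^ (a * (n - i))) ((α ^ (a * i)) x) := by
      rw [← A8b_add, ← e2]
    rw [e3, ← map_sub, ← hy', map_nsmul]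
  obtain ⟨i, j, hij, h⟩ := Finite.exists_ne_map_eq_of_infinite
    (fun n : ℕ => K.mkQ ⟨(α ^ (a * n)) x, hst _ x hx⟩)
  rcases lt_or_gt_of_ne hij with h1 | h1
  · exact key i j h1 h.symm
  · exact key j i h1 h

/-- The torsion of a finitely generated group has finite exponent. -/
theorem tors_exponent {A : Type v} [AddCommGroup A] (M : Submodule ℤ A) (hM : M.FG) :
    ∃ k : ℕ, 0 < k ∧ ∀ x ∈ M, Tors x → k • x = 0 := by
  have hf1 : Module.Finite ℤ M := Module.Finite.iff_fg.2 hM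
  have hN : IsNoetherian ℤ M := inferInstance
  have hf2 : Module.Finite ℤ (Submodule.torsion ℤ M) := inferInstance
  have hT : Module.IsTorsion ℤ (Submodule.torsion ℤ M) := Submodule.torsion_isTorsion
  have hfin : Finite (Submodule.torsion ℤ M) := Module.finite_of_fg_torsion _ hT
  refine ⟨Nat.card (Submodule.torsion ℤ M), Nat.card_pos, fun x hx ht => ?_⟩
  obtain ⟨k, hk, hkx⟩ := ht
  have hmem : (⟨x, hx⟩ : M) ∈ Submodule.torsion ℤ M := by
    refine (Submodule.mem_torsion_iff _).2 ⟨⟨(k : ℤ), mem_nonZeroDivisors_of_ne_zero (by exact_mod_cast hk.ne')⟩, ?_⟩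
    refine Subtype.ext ?_
    show (k : ℤ) • x = 0
    rw [natCast_zsmul]
    exact hkx
  have h := card_nsmul_eq_zero' (G := Submodule.torsion ℤ M) (x := ⟨⟨x, hx⟩, hmem⟩)
  exact congrArg (fun y : Submodule.torsion ℤ M => ((y : M) : A)) h

/-- multiples of the period -/
private theorem A8b_mult {A : Type v} [AddCommGroup A] (α : AddMonoid.End A) (M : Submodule ℤ A) (x : A) (k a L N : ℕ)
    (h : ∀ n ≥ N, ∃ y ∈ M, (α ^ (a * (n + L))) x - (α ^ (a * n)) x = k • y) (t : ℕ) :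
    ∀ n ≥ N, ∃ y ∈ M, (α ^ (a * (n + L * t))) x - (α ^ (a * n)) x = k • y := by
  induction t with
  | zero =>
    intro n _
    refine ⟨0, zero_mem _, ?_⟩
    rw [Nat.mul_zero, Nat.add_zero, sub_self, smul_zero]
  | succ t ih =>
    intro n hn
    obtain ⟨y, hy, e1⟩ := ih n hn
    obtain ⟨z, hz, e2⟩ := h (n + L * t) (by omega)
    refine ⟨y + z, add_mem hy hz, ?_⟩
    have e3 : n + L * (t + 1) = n + L * t + L := by ring
    rw [e3, smul_add, ← e1, ← e2]
    abel

theorem ep_zero (ess : ESS) {A : Type v} [AddCommGroup A] {q : A → ℝ}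
    {α β γ : AddMonoid.End A} {δ ε : ℝ} {D : ℕ} (hα : QD q α δ D) (hβ : QD q β ε D)
    (y y' w : A) (a b : ℕ) :
    EP {l : ℕ | (α ^ (a * l)) y - γ ((β ^ (b * l)) y') = w} := by
  obtain ⟨p, hp, -, -, hp0⟩ := hα.poly
  obtain ⟨p', hp', -, -, hp0'⟩ := hβ.poly
  obtain ⟨M₁, hM₁, hy, hst₁⟩ := orbit_fg α p hp hp0 y
  obtain ⟨M₂, hM₂, hy', hst₂⟩ := orbit_fg β p' hp' hp0' y'
  let g : A →ₗ[ℤ] A := AddMonoidHom.toIntLinearMap γ
  have hg : ∀ z, g z = γ z := fun _ => rfl
  let M : Submodule ℤ A := M₁ ⊔ M₂.map g ⊔ Submodule.span ℤ {w}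
  have hM : M.FG := (hM₁.sup (hM₂.map g)).sup (Submodule.fg_span_singleton w)
  have i₁ : ∀ z ∈ M₁, z ∈ M := fun z hz => Submodule.mem_sup_left (Submodule.mem_sup_left hz)
  have i₂ : ∀ z ∈ M₂, γ z ∈ M := fun z hz =>
    Submodule.mem_sup_left (Submodule.mem_sup_right (Submodule.mem_map_of_mem (f := g) hz))
  have i₃ : w ∈ M := Submodule.mem_sup_right (Submodule.mem_span_singleton_self w)
  obtain ⟨k, hk, hkt⟩ := tors_exponent M hM
  obtain ⟨L₁, N₁, hL₁, h₁⟩ := orbit_mod α M₁ hM₁ hst₁ y hy k a hk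
  obtain ⟨L₂, N₂, hL₂, h₂⟩ := orbit_mod β M₂ hM₂ hst₂ y' hy' k b hk
  have hs : ∀ l : ℕ, (α ^ (a * l)) y - γ ((β ^ (b * l)) y') - w ∈ M := fun l =>
    sub_mem (sub_mem (i₁ _ (A8b_stab α M₁ hst₁ _ y hy)) (i₂ _ (A8b_stab β M₂ hst₂ _ y' hy'))) i₃
  have hEP : EP {l : ℕ | ∃ x ∈ M, (α ^ (a * l)) y - γ ((β ^ (b * l)) y') - w = k • x} := by
    refine ⟨L₁ * L₂, max N₁ N₂, Nat.mul_pos hL₁ hL₂, fun n hn => ?_⟩
    obtain ⟨z₁, hz₁, e₁⟩ := A8b_mult α M₁ y k a L₁ N₁ h₁ L₂ n ((le_max_left _ _).trans hn)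
    obtain ⟨z₂, hz₂, e₂⟩ := A8b_mult β M₂ y' k b L₂ N₂ h₂ L₁ n ((le_max_right _ _).trans hn)
    rw [Nat.mul_comm L₂ L₁] at e₂
    have e₃ : ((α ^ (a * (n + L₁ * L₂))) y - γ ((β ^ (b * (n + L₁ * L₂))) y') - w) -
        ((α ^ (a * n)) y - γ ((β ^ (b * n)) y') - w) = k • (z₁ - γ z₂) := by
      have e₄ : γ ((β ^ (b * (n + L₁ * L₂))) y') - γ ((β ^ (b * n)) y') = k • γ z₂ := by
        rw [← map_sub, e₂, map_nsmul]
      rw [smul_sub, ← e₁, ← e₄]
      abel
    have hz : z₁ - γ z₂ ∈ M := sub_mem (i₁ _ hz₁) (i₂ _ hz₂)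
    constructor
    · rintro ⟨x, hx, e⟩
      refine ⟨x + (z₁ - γ z₂), add_mem hx hz, ?_⟩
      rw [smul_add, ← e, ← e₃]
      abel
    · rintro ⟨x, hx, e⟩
      refine ⟨x - (z₁ - γ z₂), sub_mem hx hz, ?_⟩
      rw [smul_sub, ← e, ← e₃]
      abel
  have hset : {l : ℕ | (α ^ (a * l)) y - γ ((β ^ (b * l)) y') = w} =
      {l : ℕ | Tors ((α ^ (a * l)) y - γ ((β ^ (b * l)) y') - w)} ∩
        {l : ℕ | ∃ x ∈ M, (α ^ (a * l)) y - γ ((β ^ (b * l)) y') - w = k • x} := by
    ext l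
    constructor
    · intro h
      have h0 : (α ^ (a * l)) y - γ ((β ^ (b * l)) y') - w = 0 := sub_eq_zero.2 h
      refine ⟨⟨1, one_pos, ?_⟩, ⟨0, zero_mem _, ?_⟩⟩
      · rw [h0, smul_zero]
      · rw [h0, smul_zero]
    · rintro ⟨⟨j, hj, e⟩, x, hx, ex⟩
      have h1 : Tors x := by
        refine ⟨j * k, Nat.mul_pos hj hk, ?_⟩
        rw [ex, smul_smul] at e
        exact e
      rw [hkt x hx h1] at ex
      exact sub_eq_zero.1 ex
  rw [hset]
  exact EP.inter (ep_tors ess hα hβ y y' w a b) hEP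

end ETT
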