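import Pool.Agent.Lib.MP_a7ed83_ag.Defs

/-! A10 (60 minutes). Eventually periodic sets and finite unions of linear families.
`EP Z` with period `L` from `N` on; for two sets take `L L'` and `max N N'` (first:
`∀ n ≥ N, ∀ k, (n ∈ Z ↔ n + L * k ∈ Z)`). `FinLin.of_EP`: `Z` is the union of the finite set
`{n ∈ Z, n < N + L}` and of the progressions `n + L ℕ`, `n ∈ Z`, `N ≤ n < N + L`; the point `l`
gives `LinFam (a + b l) 0 (c + d l) 0`, the progression `n + L ℕ` gives
`LinFam (a + b n) (b L) (c + d n) (d L)`. -/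

open Polynomial

namespace ETT

universe u v

private lemma A10_step {Z : Set ℕ} {L N : ℕ} (h : ∀ n ≥ N, (n ∈ Z ↔ n + L ∈ Z)) (n : ℕ)
    (hn : N ≤ n) (k : ℕ) : (n ∈ Z ↔ n + L * k ∈ Z) := by
  induction k with
  | zero => simp
  | succ k ih =>
    rw [ih, h (n + L * k) (le_trans hn (Nat.le_add_right _ _))]
    have h1 : n + L * k + L = n + L * (k + 1) := by ring
    rw [h1]

theorem EP.inter {Z W : Set ℕ} (h : EP Z) (h' : EP W) : EP (Z ∩ W) := by
  obtain ⟨L, N, hL, h⟩ := h
  obtain ⟨L', N', hL', h'⟩ := h'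
  refine ⟨L * L', max N N', Nat.mul_pos hL hL', fun n hn => ?_⟩
  have h1 := A10_step h n (le_trans (le_max_left _ _) hn) L'
  have h2 := A10_step h' n (le_trans (le_max_right _ _) hn) L
  rw [mul_comm L' L] at h2
  rw [Set.mem_inter_iff, Set.mem_inter_iff, h1, h2]

theorem EP.union {Z W : Set ℕ} (h : EP Z) (h' : EP W) : EP (Z ∪ W) := by
  obtain ⟨L, N, hL, h⟩ := h
  obtain ⟨L', N', hL', h'⟩ := h'
  refine ⟨L * L', max N N', Nat.mul_pos hL hL', fun n hn => ?_⟩
  have h1 := A10_step h n (le_trans (le_max_left _ _) hn) L'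
  have h2 := A10_step h' n (le_trans (le_max_right _ _) hn) L
  rw [mul_comm L' L] at h2
  rw [Set.mem_union, Set.mem_union, h1, h2]

theorem EP.of_finite {Z : Set ℕ} (h : Z.Finite) : EP Z := by
  obtain ⟨M, hM⟩ := h.bddAbove
  refine ⟨1, M + 1, one_pos, fun n hn => ?_⟩
  constructor
  · intro h1
    have := hM h1
    omega
  · intro h1
    have := hM h1
    omega

theorem EP.univ : EP Set.univ :=
  ⟨1, 0, one_pos, fun n _ => ⟨fun _ => Set.mem_univ _, fun _ => Set.mem_univ _⟩⟩

theorem EP.biInter {ι : Type*} (s : Finset ι) (Z : ι → Set ℕ) (h : ∀ i ∈ s, EP (Z i)) :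
    EP {n | ∀ i ∈ s, n ∈ Z i} := by
  classical
  induction s using Finset.induction_on with
  | empty =>
    have h1 : {n : ℕ | ∀ i ∈ (∅ : Finset ι), n ∈ Z i} = Set.univ := by
      ext n
      simp
    rw [h1]
    exact EP.univ
  | insert a s ha ih =>
    have h1 : {n : ℕ | ∀ i ∈ insert a s, n ∈ Z i} = Z a ∩ {n | ∀ i ∈ s, n ∈ Z i} := by
      ext n
      simp only [Finset.mem_insert, forall_eq_or_imp, Set.mem_setOf_eq, Set.mem_inter_iff]
    rw [h1]
    exact EP.inter (h a (Finset.mem_insert_self _ _))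
      (ih fun i hi => h i (Finset.mem_insert_of_mem hi))

theorem EP.biUnion {ι : Type*} (s : Finset ι) (Z : ι → Set ℕ) (h : ∀ i ∈ s, EP (Z i)) :
    EP {n | ∃ i ∈ s, n ∈ Z i} := by
  classical
  induction s using Finset.induction_on with
  | empty =>
    have h1 : {n : ℕ | ∃ i ∈ (∅ : Finset ι), n ∈ Z i} = ∅ := by
      ext n
      simp
    rw [h1]
    exact EP.of_finite Set.finite_empty
  | insert a s ha ih =>
    have h1 : {n : ℕ | ∃ i ∈ insert a s, n ∈ Z i} = Z a ∪ {n | ∃ i ∈ s, n ∈ Z i} := by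
      ext n
      simp only [Finset.mem_insert, exists_eq_or_imp, Set.mem_setOf_eq, Set.mem_union]
    rw [h1]
    exact EP.union (h a (Finset.mem_insert_self _ _))
      (ih fun i hi => h i (Finset.mem_insert_of_mem hi))

theorem FinLin.of_EP {Z : Set ℕ} (h : EP Z) (a b c d : ℕ) :
    FinLin {x | ∃ l ∈ Z, x = (a + b * l, c + d * l)} := by
  classical
  obtain ⟨L, N, hL, h⟩ := h
  refine ⟨((Finset.range (N + L)).filter (· ∈ Z)).image (fun n =>
    if n < N then (a + b * n, 0, c + d * n, 0) else (a + b * n, b * L, c + d * n, d * L)), ?_⟩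
  ext x
  constructor
  · rintro ⟨l, hl, rfl⟩
    by_cases hN : l < N
    · refine ⟨(a + b * l, 0, c + d * l, 0), ?_, 0, by simp⟩
      rw [Finset.mem_image]
      refine ⟨l, ?_, by rw [if_pos hN]⟩
      rw [Finset.mem_filter, Finset.mem_range]
      exact ⟨by omega, hl⟩
    · have hmod := Nat.mod_lt (l - N) hL
      have hdiv := Nat.div_add_mod (l - N) L
      have hl2 : l = N + (l - N) % L + L * ((l - N) / L) := by omega
      have hnZ : N + (l - N) % L ∈ Z := by
        rw [A10_step h (N + (l - N) % L) (by omega) ((l - N) / L), ← hl2]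
        exact hl
      refine ⟨(a + b * (N + (l - N) % L), b * L, c + d * (N + (l - N) % L), d * L), ?_,
        (l - N) / L, ?_⟩
      · rw [Finset.mem_image]
        refine ⟨N + (l - N) % L, ?_, by rw [if_neg (by omega)]⟩
        rw [Finset.mem_filter, Finset.mem_range]
        exact ⟨by omega, hnZ⟩
      · have e1 : a + b * l = a + b * (N + (l - N) % L) + b * L * ((l - N) / L) := by
          conv_lhs => rw [hl2]
          ring
        have e2 : c + d * l = c + d * (N + (l - N) % L) + d * L * ((l - N) / L) := by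
          conv_lhs => rw [hl2]
          ring
        rw [e1, e2]
  · rintro ⟨t, ht, k, rfl⟩
    rw [Finset.mem_image] at ht
    obtain ⟨n, hn, rfl⟩ := ht
    rw [Finset.mem_filter, Finset.mem_range] at hn
    by_cases hN : n < N
    · rw [if_pos hN]
      exact ⟨n, hn.2, by simp⟩
    · rw [if_neg hN]
      refine ⟨n + L * k, (A10_step h n (by omega) k).mp hn.2, ?_⟩
      have e1 : a + b * n + b * L * k = a + b * (n + L * k) := by ring
      have e2 : c + d * n + d * L * k = c + d * (n + L * k) := by ring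
      show (a + b * n + b * L * k, c + d * n + d * L * k) = _
      rw [e1, e2]

theorem FinLin.union {S S' : Set (ℕ × ℕ)} (h : FinLin S) (h' : FinLin S') : FinLin (S ∪ S') := by
  classical
  obtain ⟨T, rfl⟩ := h
  obtain ⟨T', rfl⟩ := h'
  refine ⟨T ∪ T', ?_⟩
  ext x
  constructor
  · rintro (⟨t, ht, hx⟩ | ⟨t, ht, hx⟩)
    · exact ⟨t, Finset.mem_union_left _ ht, hx⟩
    · exact ⟨t, Finset.mem_union_right _ ht, hx⟩
  · rintro ⟨t, ht, hx⟩
    rcases Finset.mem_union.mp ht with h1 | h1
    · exact Or.inl ⟨t, h1, hx⟩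
    · exact Or.inr ⟨t, h1, hx⟩

theorem FinLin.of_finite {S : Set (ℕ × ℕ)} (h : S.Finite) : FinLin S := by
  classical
  refine ⟨h.toFinset.image (fun p => (p.1, 0, p.2, 0)), ?_⟩
  ext x
  constructor
  · intro hx
    refine ⟨(x.1, 0, x.2, 0), ?_, 0, by simp⟩
    rw [Finset.mem_image]
    exact ⟨x, h.mem_toFinset.mpr hx, rfl⟩
  · rintro ⟨t, ht, k, rfl⟩
    rw [Finset.mem_image] at ht
    obtain ⟨p, hp, rfl⟩ := ht
    rw [h.mem_toFinset] at hp
    simpa using hp

end ETT
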