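import Pool.Agent.Lib.MP_a7ed83_ag.Defs

/-! A1 (30 minutes). Lagrange decomposition.
PROOF. If `R` is empty, `aeval T 1 = 1 = 0`, so every `φ = (1 : End) φ = 0`; take `e = 0`.
Otherwise put `e z := aeval T (Lagrange.basis R id z)`. `Lagrange.sum_basis` (injective on `R`,
`R` nonempty) gives `∑ z ∈ R, e z = 1`. For `z ∈ R`, `(X - C z) * Lagrange.basis R id z` is a
constant times `∏ z ∈ R, (X - C z)` (`Lagrange.basis` is `∏ j ∈ R.erase z, basisDivisor z j`,
`basisDivisor x y = C (x - y)⁻¹ * (X - C y)`; use `Finset.prod_mul_distrib` and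
`Finset.mul_prod_erase`), so `(T - z) * e z = 0`. -/

open Polynomial

namespace ETT

universe u v

theorem eig_decomp {Φ : Type v} [AddCommGroup Φ] [Module ℂ Φ] (T : Module.End ℂ Φ)
    (R : Finset ℂ) (h : aeval T (∏ z ∈ R, (X - C z)) = 0) :
    ∃ e : ℂ → Module.End ℂ Φ, (∀ φ, φ = ∑ z ∈ R, e z φ) ∧
      ∀ z ∈ R, ∀ φ, T (e z φ) = z • e z φ := by
  classical
  rcases R.eq_empty_or_nonempty with hR | hR
  · subst hR
    rw [Finset.prod_empty, map_one] at h
    refine ⟨fun _ => 0, fun φ => ?_, fun z hz => absurd hz (Finset.notMem_empty z)⟩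
    have h1 : (1 : Module.End ℂ Φ) φ = (0 : Module.End ℂ Φ) φ := by rw [h]
    rw [Finset.sum_empty]
    exact h1
  · refine ⟨fun z => aeval T (Lagrange.basis R id z), fun φ => ?_, fun z hz φ => ?_⟩
    · have h1 := Lagrange.sum_basis (s := R) (v := (id : ℂ → ℂ)) Function.injective_id.injOn hR
      have h2 := congrArg (fun q => aeval T q φ) h1
      simp only [map_sum, map_one, LinearMap.sum_apply, Module.End.one_apply] at h2
      exact h2.symm
    · have h1 : (X - C z) * Lagrange.basis R (id : ℂ → ℂ) z =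
          C (∏ j ∈ R.erase z, (z - j)⁻¹) * ∏ j ∈ R, (X - C j) := by
        rw [← Finset.mul_prod_erase R (fun j => X - C j) hz, Lagrange.basis]
        simp only [Lagrange.basisDivisor, id, Finset.prod_mul_distrib, map_prod]
        ring
      have h2 := congrArg (fun q => aeval T q φ) h1
      simp only [map_mul, h, mul_zero, LinearMap.zero_apply, map_sub, aeval_X, aeval_C,
        Module.End.mul_apply, LinearMap.sub_apply] at h2
      rw [Module.algebraMap_end_apply, sub_eq_zero] at h2
      exact h2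

end ETT
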