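import Pool.Agent.Lib.MP_a7ed83_ag.W.A5
import Pool.Agent.Lib.MP_a7ed83_ag.W.A10

/-! A7 (80 minutes). Skolem-Mahler-Lech for sums of exponentials, from `count`.
PROOF. (1) `finite_zeros`: apply `count` with `κ := {k // k ≠ k₀}`, `a k = - d k / d k₀`,
`ρ k = σ k / σ k₀`, `s = fun _ => true`, `E = {(l, 0) | ∑ k, d k * σ k ^ l = 0}`; a set with
bounded `encard` is finite; so the set of the `l` is finite (injective image).
(2) `sml`: choose `L > 0` such that `(ρ i / ρ j) ^ L = 1` whenever `ρ i / ρ j` is a root of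
unity (product over the finitely many pairs of exponents `t > 0`). Fix `r < L`. For `l = r + L k`
the sum is `∑ σ ∈ image (ρ · ^ L), D σ * σ ^ k` with
`D σ = ∑ i with ρ i ^ L = σ, c i * ρ i ^ r` (`Finset.sum_fiberwise`-type). If all `D σ = 0` then
every `l ≡ r (mod L)` is in the set. Otherwise apply (1) to the finite nonempty set of the `σ`
with `D σ ≠ 0` (as a subtype): the quotients of different `σ = ρ i ^ L`, `σ' = ρ j ^ L` are not
roots of unity, since `(σ / σ') ^ t = 1` implies `(ρ i / ρ j) ^ (L t) = 1`, hence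
`(ρ i / ρ j) ^ L = 1` and `σ = σ'`. So only finitely many `k`. In both cases
`{l | l ≡ r mod L, l ∈ set}` is eventually periodic with period `L`; take the maximum of the
bounds over `r < L`: for `n ≥ N`, `n ∈ set ↔ n + L ∈ set`. -/

open Polynomial

namespace ETT

universe u v

theorem finite_zeros (ess : ESS) {κ : Type} [Fintype κ] [DecidableEq κ] (k₀ : κ) (d σ : κ → ℂ)
    (hd : ∀ k, d k ≠ 0) (hσ : ∀ k, σ k ≠ 0)
    (hr : ∀ k, k ≠ k₀ → ∀ t : ℕ, 0 < t → (σ k / σ k₀) ^ t ≠ 1) :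
    {l : ℕ | ∑ k, d k * σ k ^ l = 0}.Finite := by
  classical
  obtain ⟨N, hN⟩ := count ess (Fintype.card κ)
  have key := hN {k : κ // k ≠ k₀} (Fintype.card_subtype_le _) (fun k => -(d k.1) / d k₀) (fun k => σ k.1 / σ k₀)
    (fun _ => true) {z : ℕ × ℕ | z.1 = z.2 ∧ ∑ k, d k * σ k ^ z.1 = 0}
    (fun k => div_ne_zero (neg_ne_zero.mpr (hd _)) (hd _)) (fun k => div_ne_zero (hσ _) (hσ _)) (fun k t ht => hr k.1 k.2 t ht)
    (by
      rintro ⟨l, l'⟩ ⟨-, h2⟩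
      dsimp only at h2 ⊢
      rw [if_pos rfl]
      have e1 : ∑ k : {k : κ // k ≠ k₀}, d k.1 * σ k.1 ^ l = -(d k₀ * σ k₀ ^ l) := by
        have e2 : ∑ k, d k * σ k ^ l = d k₀ * σ k₀ ^ l + ∑ k ∈ Finset.univ.erase k₀, d k * σ k ^ l :=
          (Finset.add_sum_erase Finset.univ (fun k => d k * σ k ^ l) (Finset.mem_univ k₀)).symm
        have e3 : ∑ k : {k : κ // k ≠ k₀}, d k.1 * σ k.1 ^ l = ∑ k ∈ Finset.univ.erase k₀, d k * σ k ^ l := by
          refine (Finset.sum_subtype (Finset.univ.erase k₀) (fun x => ?_) (fun k => d k * σ k ^ l)).symm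
          simp
        rw [e3]
        rw [e2] at h2
        exact eq_neg_of_add_eq_zero_right h2
      have e4 : ∑ k : {k : κ // k ≠ k₀}, -(d k.1) / d k₀ * (σ k.1 / σ k₀) ^ l =
          -(∑ k : {k : κ // k ≠ k₀}, d k.1 * σ k.1 ^ l) / (d k₀ * σ k₀ ^ l) := by
        rw [← Finset.sum_neg_distrib, Finset.sum_div]
        refine Finset.sum_congr rfl fun k _ => ?_
        rw [div_pow, div_mul_div_comm, neg_mul]
      have hne : d k₀ * σ k₀ ^ l ≠ 0 := mul_ne_zero (hd _) (pow_ne_zero _ (hσ _))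
      refine e4.trans ?_
      rw [e1, neg_neg, div_self hne])
    (by
      rintro ⟨l, l'⟩ ⟨h1, -⟩ ⟨m, m'⟩ ⟨h2, -⟩ h3
      dsimp only at h1 h2 h3
      rcases h3 with h3 | h3
      · rw [← h1, ← h2, h3]
      · rw [h1, h2, h3])
  have hfin : {z : ℕ × ℕ | z.1 = z.2 ∧ ∑ k, d k * σ k ^ z.1 = 0}.Finite := Set.finite_of_encard_le_coe key
  have hpre : {l : ℕ | ∑ k, d k * σ k ^ l = 0} = (fun l : ℕ => (l, l)) ⁻¹' {z : ℕ × ℕ | z.1 = z.2 ∧ ∑ k, d k * σ k ^ z.1 = 0} := by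
    ext l
    simp
  rw [hpre]
  refine hfin.preimage fun a _ b _ hab => ?_
  exact (Prod.mk.inj hab).1

private theorem A7_dich (ess : ESS) {κ : Type} [Fintype κ] (c τ : κ → ℂ) (h0 : ∀ k, τ k ≠ 0)
    (hτ : ∀ i j, ∀ t : ℕ, 0 < t → (τ i / τ j) ^ t = 1 → τ i = τ j) :
    {k : ℕ | ∑ i, c i * τ i ^ k = 0}.Finite ∨ ∀ k : ℕ, ∑ i, c i * τ i ^ k = 0 := by
  classical
  obtain ⟨D, hD⟩ : ∃ D : ℂ → ℂ, D = fun σ => ∑ i ∈ Finset.univ.filter (fun i => τ i = σ), c i := ⟨_, rfl⟩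
  have e1 : ∀ k : ℕ, ∑ i, c i * τ i ^ k = ∑ σ ∈ (Finset.univ.image τ).filter (fun σ => D σ ≠ 0), D σ * σ ^ k := by
    intro k
    have e2 : ∑ i, c i * τ i ^ k = ∑ σ ∈ Finset.univ.image τ, D σ * σ ^ k := by
      rw [← Finset.sum_fiberwise_of_maps_to (s := Finset.univ) (t := Finset.univ.image τ) (g := τ)
        (fun i _ => Finset.mem_image_of_mem _ (Finset.mem_univ i))]
      refine Finset.sum_congr rfl fun σ _ => ?_
      rw [hD]
      dsimp only
      rw [Finset.sum_mul]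
      exact Finset.sum_congr rfl fun i hi => by rw [(Finset.mem_filter.mp hi).2]
    rw [e2]
    refine (Finset.sum_subset (Finset.filter_subset _ _) fun σ h1 h2 => ?_).symm
    have h3 : D σ = 0 := by
      by_contra hc
      exact h2 (Finset.mem_filter.mpr ⟨h1, hc⟩)
    rw [h3, zero_mul]
  rcases ((Finset.univ.image τ).filter (fun σ => D σ ≠ 0)).eq_empty_or_nonempty with he | ⟨σ0, hσ0⟩
  · right
    intro k
    rw [e1, he, Finset.sum_empty]
  · left
    have hmem : ∀ σ ∈ (Finset.univ.image τ).filter (fun σ => D σ ≠ 0), (∃ i, τ i = σ) ∧ D σ ≠ 0 := by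
      intro σ hσ
      obtain ⟨h1, h2⟩ := Finset.mem_filter.mp hσ
      obtain ⟨i, _, hi⟩ := Finset.mem_image.mp h1
      exact ⟨⟨i, hi⟩, h2⟩
    have key := finite_zeros ess (κ := {σ // σ ∈ (Finset.univ.image τ).filter (fun σ => D σ ≠ 0)}) ⟨σ0, hσ0⟩ (fun σ => D σ.1) (fun σ => σ.1)
      (fun σ => (hmem σ.1 σ.2).2)
      (fun σ => by
        obtain ⟨⟨i, hi⟩, _⟩ := hmem σ.1 σ.2
        rw [← hi]
        exact h0 i)
      (fun σ hne t ht hc => by
        obtain ⟨⟨i, hi⟩, _⟩ := hmem σ.1 σ.2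
        obtain ⟨⟨j, hj⟩, _⟩ := hmem σ0 hσ0
        refine hne (Subtype.ext ?_)
        dsimp only at hc ⊢
        rw [← hi, ← hj] at hc
        rw [← hi, ← hj]
        exact hτ i j t ht hc)
    refine key.subset fun k hk => ?_
    have hk' : ∑ i, c i * τ i ^ k = 0 := hk
    rw [e1] at hk'
    change ∑ σ : {σ // σ ∈ (Finset.univ.image τ).filter (fun σ => D σ ≠ 0)}, D σ.1 * σ.1 ^ k = 0
    exact (Finset.sum_coe_sort ((Finset.univ.image τ).filter (fun σ => D σ ≠ 0)) (fun σ => D σ * σ ^ k)).trans hk'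

theorem sml (ess : ESS) {κ : Type} [Fintype κ] (c : κ → ℂ) (ρ : κ → ℂ) (h0 : ∀ k, ρ k ≠ 0) :
    EP {l : ℕ | ∑ k, c k * ρ k ^ l = 0} := by
  classical
  -- the common exponent
  have hL : ∃ L : ℕ, 0 < L ∧ ∀ i j, (∃ t : ℕ, 0 < t ∧ (ρ i / ρ j) ^ t = 1) → (ρ i / ρ j) ^ L = 1 := by
    have h1 : ∀ p : κ × κ, ∃ t : ℕ, 0 < t ∧ ((∃ t : ℕ, 0 < t ∧ (ρ p.1 / ρ p.2) ^ t = 1) → (ρ p.1 / ρ p.2) ^ t = 1) := by
      intro p
      by_cases h : ∃ t : ℕ, 0 < t ∧ (ρ p.1 / ρ p.2) ^ t = 1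
      · obtain ⟨t, ht, e⟩ := h
        exact ⟨t, ht, fun _ => e⟩
      · exact ⟨1, one_pos, fun h' => absurd h' h⟩
    choose t ht ht2 using h1
    refine ⟨∏ p, t p, Finset.prod_pos fun p _ => ht p, fun i j hij => ?_⟩
    obtain ⟨d, hd⟩ := Finset.dvd_prod_of_mem t (Finset.mem_univ (i, j))
    rw [hd, pow_mul, ht2 (i, j) hij, one_pow]
  obtain ⟨L, hL0, hL⟩ := hL
  have hdich : ∀ r : ℕ, ∃ N : ℕ, ∀ k ≥ N, (∑ i, c i * ρ i ^ (r + L * k) = 0 ↔ ∑ i, c i * ρ i ^ (r + L * (k + 1)) = 0) := by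
    intro r
    have e1 : ∀ k : ℕ, ∑ i, c i * ρ i ^ (r + L * k) = ∑ i, (c i * ρ i ^ r) * (ρ i ^ L) ^ k := fun k =>
      Finset.sum_congr rfl fun i _ => by rw [pow_add, pow_mul, mul_assoc]
    rcases A7_dich ess (fun i => c i * ρ i ^ r) (fun i => ρ i ^ L) (fun i => pow_ne_zero _ (h0 i)) (fun i j t ht h => by
      rw [← div_pow, ← pow_mul] at h
      have h1 := hL i j ⟨L * t, Nat.mul_pos hL0 ht, h⟩
      rw [div_pow] at h1
      exact (div_eq_one_iff_eq (pow_ne_zero _ (h0 j))).mp h1) with hf | hall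
    · obtain ⟨N, hN⟩ := hf.bddAbove
      refine ⟨N + 1, fun k hk => ?_⟩
      rw [e1, e1]
      constructor
      · intro h
        have := hN h
        omega
      · intro h
        have := hN h
        omega
    · refine ⟨0, fun k _ => ?_⟩
      rw [e1, e1]
      exact ⟨fun _ => hall _, fun _ => hall _⟩
  choose N hN using hdich
  refine ⟨L, L * (∑ r ∈ Finset.range L, N r), hL0, fun n hn => ?_⟩
  have hr : n % L < L := Nat.mod_lt _ hL0
  have hk : N (n % L) ≤ n / L := by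
    have h1 : ∑ r ∈ Finset.range L, N r ≤ n / L := by
      rw [Nat.le_div_iff_mul_le hL0, mul_comm]
      exact hn
    exact (Finset.single_le_sum (fun _ _ => Nat.zero_le _) (Finset.mem_range.mpr hr)).trans h1
  have key := hN (n % L) (n / L) hk
  have e1 : n % L + L * (n / L) = n := Nat.mod_add_div n L
  have e2 : n % L + L * (n / L + 1) = n + L := by
    rw [mul_add, mul_one, ← add_assoc, e1]
  rw [e1, e2] at key
  exact key

end ETT
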