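import Pool.Agent.Lib.MP_a7ed83_ag.W.A2
import Pool.Agent.Lib.MP_a7ed83_ag.W.A3
import Pool.Agent.Lib.MP_a7ed83_ag.W.A4
import Pool.Agent.Lib.MP_a7ed83_ag.W.A7

/-! A8 (80 minutes). The set of `l` for which `s l := α^(al) y - γ β^(bl) y' - w` is torsion is
eventually periodic.
PROOF. `expand` for `α` gives `R, e`, for `β` gives `R', e'`. For `φ : A →+ ℂ`:
`φ (s l) = ∑ z ∈ R, e z φ y * (z ^ a) ^ l - ∑ z ∈ R', e' z (φ.comp γ) y' * (z ^ b) ^ l - φ w`
(`expand_pow`). Let `κ := R ⊕ R' ⊕ Unit` (subtypes of the finsets), `Ψ : (A →+ ℂ) →ₗ[ℂ] (κ → ℂ)`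
the linear map of the coefficients `(e z φ y, - e' z (φ.comp γ) y', - φ w)`, and
`ρ := (z ^ a or 1 if z = 0, z ^ b or 1 if z = 0, 1)`. If `z = 0` then the coefficient of `z` is
zero for all `φ` by `not_root` (`ψ := e z φ` is an eigenhomomorphism). So
`φ (s l) = ∑ k, Ψ φ k * ρ k ^ l`. `s l` is torsion iff `φ (s l) = 0` for all `φ` (`exists_hom`),
iff `∑ k, c k * ρ k ^ l = 0` for all `c` in the range of `Ψ`, iff for all `c` in a finite
spanning set of the range of `Ψ` (a subspace of the finite dimensional `κ → ℂ`; the condition is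
linear in `c`: `Submodule.span_induction`). Use `EP.biInter` and `sml`. -/

open Polynomial

namespace ETT

universe u v


private theorem A8_tors {A : Type v} [AddCommGroup A] (x : A) : Tors x ↔ ∀ φ : A →+ ℂ, φ x = 0 := by
  constructor
  · rintro ⟨k, hk, hx⟩ φ
    have h1 : φ (k • x) = 0 := by rw [hx, map_zero]
    rw [map_nsmul, nsmul_eq_mul] at h1
    rcases mul_eq_zero.1 h1 with h2 | h2
    · exact absurd (Nat.cast_eq_zero.1 h2) (by omega)
    · exact h2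
  · intro h
    by_contra hx
    obtain ⟨φ, hφ⟩ := exists_hom x hx
    exact hφ (h φ)

/-- the value of a sum of exponentials, as a linear form in the coefficients -/
private noncomputable def A8_L {κ : Type} [Fintype κ] (ρ : κ → ℂ) (l : ℕ) : (κ → ℂ) →ₗ[ℂ] ℂ where
  toFun := fun c => ∑ k, c k * ρ k ^ l
  map_add' := by
    intro c d
    simp only [Pi.add_apply, add_mul, Finset.sum_add_distrib]
  map_smul' := by
    intro t c
    simp only [Pi.smul_apply, smul_eq_mul, RingHom.id_apply, Finset.mul_sum, mul_assoc]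

private theorem A8_term {A : Type v} [AddCommGroup A] {q : A → ℝ} {α : AddMonoid.End A} {δ : ℝ} {D : ℕ}
    (h : QD q α δ D) (R : Finset ℂ) (e : ℂ → ((A →+ ℂ) →ₗ[ℂ] (A →+ ℂ))) (h1 : ∀ φ : A →+ ℂ, φ = ∑ z ∈ R, e z φ)
    (h2 : ∀ z ∈ R, ∀ (φ : A →+ ℂ) (x : A), e z φ (α x) = z * e z φ x) (φ : A →+ ℂ) (a l : ℕ) (y : A) :
    φ ((α ^ (a * l)) y) = ∑ z : {z // z ∈ R}, e z.1 φ y * (if z.1 = 0 then (1 : ℂ) else z.1 ^ a) ^ l := by
  rw [expand_pow α R e h1 h2 φ (a * l) y, ← Finset.sum_coe_sort R (fun z => z ^ (a * l) * e z φ y)]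
  refine Finset.sum_congr rfl fun z _ => ?_
  obtain ⟨z, hz⟩ := z
  by_cases h0 : z = 0
  · have h3 : ∀ x, e z φ x = 0 := by
      intro x
      by_contra hne
      exact (not_root h (e z φ) z (fun x => h2 z hz φ x) ⟨x, hne⟩).1 h0
    simp only [h3, mul_zero, zero_mul]
  · simp only [h0, if_false]
    rw [pow_mul]
    ring

theorem ep_tors (ess : ESS) {A : Type v} [AddCommGroup A] {q : A → ℝ}
    {α β γ : AddMonoid.End A} {δ ε : ℝ} {D : ℕ} (hα : QD q α δ D) (hβ : QD q β ε D)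
    (y y' w : A) (a b : ℕ) :
    EP {l : ℕ | Tors ((α ^ (a * l)) y - γ ((β ^ (b * l)) y') - w)} := by
  obtain ⟨p, hm, _, hs, ha⟩ := hα.poly
  obtain ⟨R, e, _, h1, h2⟩ := expand α p hm hs ha
  obtain ⟨p', hm', _, hs', ha'⟩ := hβ.poly
  obtain ⟨R', e', _, h1', h2'⟩ := expand β p' hm' hs' ha'
  let κ : Type := {z // z ∈ R} ⊕ ({z // z ∈ R'} ⊕ Unit)
  let c : (A →+ ℂ) → (κ → ℂ) := fun φ => Sum.elim (fun z => e z.1 φ y)
    (Sum.elim (fun z => - e' z.1 (φ.comp (γ : A →+ A)) y') (fun _ => - φ w))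
  let ρ : κ → ℂ := Sum.elim (fun z => if z.1 = 0 then (1 : ℂ) else z.1 ^ a)
    (Sum.elim (fun z => if z.1 = 0 then (1 : ℂ) else z.1 ^ b) (fun _ => 1))
  have hρ : ∀ k, ρ k ≠ 0 := by
    rintro (z | z | z)
    · show (if z.1 = 0 then (1 : ℂ) else z.1 ^ a) ≠ 0
      split_ifs with h
      · exact one_ne_zero
      · exact pow_ne_zero _ h
    · show (if z.1 = 0 then (1 : ℂ) else z.1 ^ b) ≠ 0
      split_ifs with h
      · exact one_ne_zero
      · exact pow_ne_zero _ h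
    · exact one_ne_zero
  have hform : ∀ (φ : A →+ ℂ) (l : ℕ), φ ((α ^ (a * l)) y - γ ((β ^ (b * l)) y') - w) = A8_L ρ l (c φ) := by
    intro φ l
    have e1 : A8_L ρ l (c φ) = ∑ k, c φ k * ρ k ^ l := rfl
    rw [e1, Fintype.sum_sum_type, Fintype.sum_sum_type]
    have e2 := A8_term hα R e h1 h2 φ a l y
    have e3 := A8_term hβ R' e' h1' h2' (φ.comp (γ : A →+ A)) b l y'
    have e4 : φ (γ ((β ^ (b * l)) y')) = (φ.comp (γ : A →+ A)) ((β ^ (b * l)) y') := rfl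
    rw [map_sub, map_sub, e4, e2, e3]
    have e5 : ∑ z : {z // z ∈ R'}, c φ (Sum.inr (Sum.inl z)) * ρ (Sum.inr (Sum.inl z)) ^ l =
        - ∑ z : {z // z ∈ R'}, e' z.1 (φ.comp (γ : A →+ A)) y' * (if z.1 = 0 then (1 : ℂ) else z.1 ^ b) ^ l := by
      rw [← Finset.sum_neg_distrib]
      refine Finset.sum_congr rfl fun z _ => ?_
      show (- e' z.1 (φ.comp (γ : A →+ A)) y') * (if z.1 = 0 then (1 : ℂ) else z.1 ^ b) ^ l = _
      ring
    have e6 : ∑ z : Unit, c φ (Sum.inr (Sum.inr z)) * ρ (Sum.inr (Sum.inr z)) ^ l = - φ w := by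
      show ∑ z : Unit, (- φ w) * (1 : ℂ) ^ l = _
      simp
    rw [e5, e6]
    show _ = ∑ z : {z // z ∈ R}, e z.1 φ y * (if z.1 = 0 then (1 : ℂ) else z.1 ^ a) ^ l + _
    ring
  obtain ⟨S, hS⟩ := IsNoetherian.noetherian (Submodule.span ℂ (Set.range c))
  have key : {l : ℕ | Tors ((α ^ (a * l)) y - γ ((β ^ (b * l)) y') - w)} =
      {l : ℕ | ∀ v ∈ S, l ∈ {l : ℕ | ∑ k, v k * ρ k ^ l = 0}} := by
    ext l
    show Tors ((α ^ (a * l)) y - γ ((β ^ (b * l)) y') - w) ↔ ∀ v ∈ S, A8_L ρ l v = 0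
    rw [A8_tors]
    have e1 : (∀ φ : A →+ ℂ, φ ((α ^ (a * l)) y - γ ((β ^ (b * l)) y') - w) = 0) ↔
        Submodule.span ℂ (Set.range c) ≤ LinearMap.ker (A8_L ρ l) := by
      rw [Submodule.span_le]
      constructor
      · rintro h _ ⟨φ, rfl⟩
        show c φ ∈ LinearMap.ker (A8_L ρ l)
        rw [LinearMap.mem_ker, ← hform]
        exact h φ
      · intro h φ
        rw [hform]
        exact LinearMap.mem_ker.1 (h ⟨φ, rfl⟩)
    rw [e1, ← hS, Submodule.span_le]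
    constructor
    · intro h v hv
      exact LinearMap.mem_ker.1 (h hv)
    · intro h v hv
      exact LinearMap.mem_ker.2 (h v hv)
  rw [key]
  exact EP.biInter S (fun v => {l : ℕ | ∑ k, v k * ρ k ^ l = 0}) (fun v _ => sml ess v ρ hρ)

end ETT
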