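import Pool.Agent.Lib.MP_a7ed83_ag.Defs

/-! A9 (50 minutes). The solutions `(m, n)` of `δ^m U = ε^n V` form a line.
PROOF. Let `(m₀, n₀)` be the solution with the smallest `m₀` (`Nat.find`). For another solution
`(m, n)`: `m ≥ m₀`, `δ^(m - m₀) * (ε^n₀ V) = ε^n V`, so `ε^n ≥ ε^n₀`, `n ≥ n₀` and
`δ^(m - m₀) = ε^(n - n₀)`. Conversely such pairs are solutions. Relations: let
`Rel = {(s, t) : δ^s = ε^t}`. `s = 0 ↔ t = 0` in `Rel` (`one_lt`). If `Rel` has only `(0,0)`, take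
`a = b = 0`. Otherwise let `a > 0` be minimal with `δ^a = ε^b` for some `b` (then `b > 0`); for
`(s, t) ∈ Rel`, `s = a k + r`, `r < a`: `δ^r * ε^(b k) = ε^t`, so `t ≥ b k` (as `δ^r ≥ 1`) and
`δ^r = ε^(t - b k)`, minimality gives `r = 0`, hence `t = b k`. -/

open Polynomial

namespace ETT

universe u v

private lemma A9_rel (δ ε : ℝ) (hδ : 1 < δ) (hε : 1 < ε) :
    ∃ a b : ℕ, (a = 0 ↔ b = 0) ∧ δ ^ a = ε ^ b ∧
      ∀ s t : ℕ, δ ^ s = ε ^ t ↔ ∃ l, s = a * l ∧ t = b * l := by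
  classical
  have hε0 : 0 < ε := by linarith
  have hδ0 : 0 < δ := by linarith
  have hone : ∀ t : ℕ, ε ^ t = 1 → t = 0 := by
    intro t ht
    by_contra h
    have := one_lt_pow₀ hε h
    linarith
  by_cases hex : ∃ s : ℕ, 0 < s ∧ ∃ t : ℕ, δ ^ s = ε ^ t
  · obtain ⟨ha, b, hb⟩ := Nat.find_spec hex
    set a := Nat.find hex with hadef
    have hb0 : b ≠ 0 := by
      rintro rfl
      have h1 := one_lt_pow₀ hδ ha.ne'
      rw [hb, pow_zero] at h1
      exact lt_irrefl _ h1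
    refine ⟨a, b, ⟨fun h => absurd h ha.ne', fun h => absurd h hb0⟩, hb, ?_⟩
    intro s t
    constructor
    · intro h
      have hs : δ ^ s = ε ^ (b * (s / a)) * δ ^ (s % a) := by
        conv_lhs => rw [← Nat.div_add_mod s a]
        rw [pow_add, pow_mul, hb, ← pow_mul]
      have hr1 : 1 ≤ δ ^ (s % a) := one_le_pow₀ hδ.le
      have hp : 0 < ε ^ (b * (s / a)) := pow_pos hε0 _
      have hle : b * (s / a) ≤ t := by
        have h1 : ε ^ (b * (s / a)) ≤ ε ^ t := by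
          rw [← h, hs]
          nlinarith
        exact (pow_le_pow_iff_right₀ hε).mp h1
      have hr2 : δ ^ (s % a) = ε ^ (t - b * (s / a)) := by
        have e : ε ^ t = ε ^ (b * (s / a)) * ε ^ (t - b * (s / a)) := by
          rw [← pow_add, Nat.add_sub_cancel' hle]
        rw [← h, hs] at e
        exact mul_left_cancel₀ hp.ne' e
      have hr0 : s % a = 0 := by
        by_contra hne
        have h1 : a ≤ s % a := Nat.find_min' hex ⟨Nat.pos_of_ne_zero hne, _, hr2⟩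
        have h2 := Nat.mod_lt s ha
        omega
      rw [hr0, pow_zero] at hr2
      have h3 := hone _ hr2.symm
      refine ⟨s / a, ?_, by omega⟩
      have h4 := Nat.div_add_mod s a
      omega
    · rintro ⟨l, rfl, rfl⟩
      rw [pow_mul, pow_mul, hb]
  · refine ⟨0, 0, Iff.rfl, by simp, ?_⟩
    intro s t
    constructor
    · intro h
      have hs : s = 0 := by
        by_contra hne
        exact hex ⟨s, Nat.pos_of_ne_zero hne, t, h⟩
      subst hs
      rw [pow_zero] at h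
      exact ⟨0, by simp, by simpa using hone _ h.symm⟩
    · rintro ⟨l, rfl, rfl⟩
      simp

theorem line (δ ε U V : ℝ) (hδ : 1 < δ) (hε : 1 < ε) (hU : 0 < U) (hV : 0 < V)
    (hne : ∃ m n : ℕ, δ ^ m * U = ε ^ n * V) :
    ∃ m₀ a n₀ b : ℕ, (∀ m n : ℕ, δ ^ m * U = ε ^ n * V ↔ ∃ l, m = m₀ + a * l ∧ n = n₀ + b * l) ∧
      (a ≠ 0 → δ ^ a = ε ^ b) ∧ (a = 0 ↔ b = 0) := by
  classical
  have hε0 : 0 < ε := by linarith
  have hδ0 : 0 < δ := by linarith
  obtain ⟨a, b, hab, hpow, hall⟩ := A9_rel δ ε hδ hε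
  obtain ⟨n₀, h0⟩ := Nat.find_spec hne
  set m₀ := Nat.find hne with hm0
  refine ⟨m₀, a, n₀, b, ?_, fun _ => hpow, hab⟩
  intro m n
  constructor
  · intro h
    have hm : m₀ ≤ m := Nat.find_min' hne ⟨n, h⟩
    have hn : n₀ ≤ n := by
      have h1 : δ ^ m₀ ≤ δ ^ m := pow_le_pow_right₀ hδ.le hm
      have h2 : ε ^ n₀ * V ≤ ε ^ n * V := by
        rw [← h0, ← h]
        exact mul_le_mul_of_nonneg_right h1 hU.le
      exact (pow_le_pow_iff_right₀ hε).mp (le_of_mul_le_mul_right h2 hV)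
    have h4 : δ ^ (m - m₀) = ε ^ (n - n₀) := by
      have e1 : δ ^ m = δ ^ (m - m₀) * δ ^ m₀ := by rw [← pow_add, Nat.sub_add_cancel hm]
      have e2 : ε ^ n = ε ^ (n - n₀) * ε ^ n₀ := by rw [← pow_add, Nat.sub_add_cancel hn]
      rw [e1, e2, mul_assoc, mul_assoc, h0] at h
      have hpos : 0 < ε ^ n₀ * V := mul_pos (pow_pos hε0 _) hV
      exact mul_right_cancel₀ hpos.ne' h
    obtain ⟨l, hl1, hl2⟩ := (hall _ _).mp h4
    exact ⟨l, by omega, by omega⟩
  · rintro ⟨l, rfl, rfl⟩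
    rw [pow_add, pow_add, pow_mul, pow_mul, hpow]
    have e1 : δ ^ m₀ * (ε ^ b) ^ l * U = (ε ^ b) ^ l * (δ ^ m₀ * U) := by ring
    rw [e1, h0]
    ring

end ETT
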